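import Pool.Agent.H98R3.PF.Tower

open MeasureTheory Set Filter ProbabilityTheory
open scoped Topology ENNReal symmDiff

namespace Pool.Agent.H98R3.PF

variable {X : Type*} [MeasurableSpace X]

theorem torsion_approx [StandardBorelSpace X] (μ : Measure X) [IsProbabilityMeasure μ]
    [NullSingletonClass μ] (T0 : X ≃ᵐ X) (h0 : MeasurePreserving T0 μ μ) (N H n : ℕ)
    (hN : 1 ≤ N) (hH : 1 ≤ H) (F : Finset (Set X)) (hF : ∀ A ∈ F, MeasurableSet A) :
    ∃ T : X ≃ᵐ X, MeasurePreserving T μ μ ∧
      (∀ A ∈ F, μ ((T ⁻¹' A) ∆ (T0 ⁻¹' A)) ≤ (H : ℝ≥0∞)⁻¹) ∧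
      (∀ A ∈ F, μ ((T^[H] ⁻¹' A) ∆ (T0^[n] ⁻¹' A)) ≤ μ ((T0^[N * n] ⁻¹' A) ∆ A)) ∧
      T^[N * H] = id := by
  classical
  have hNH : NeZero (N * H) := ⟨by positivity⟩
  set F' : Finset (Set X) := F ∪ (F.image (fun A => T0 ⁻¹' A) ∪ F.image (fun A => T0^[n] ⁻¹' A))
    with hF'
  have hF'm : ∀ A ∈ F', MeasurableSet A := by
    intro A hA
    simp only [hF', Finset.mem_union, Finset.mem_image] at hA
    rcases hA with hA | ⟨B, hB, rfl⟩ | ⟨B, hB, rfl⟩
    · exact hF A hA
    · exact T0.measurable (hF B hB)
    · exact (h0.iterate n).measurable (hF B hB)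
  obtain ⟨T, h1, h2, h3⟩ := tower_main μ μ (N * H)
    (fun p => T0^[(p.val / H) * n + p.val % H]) (fun p => h0.iterate _) F' hF'm
  refine ⟨T, h1, ?_, ?_, h3⟩
  · intro A hA
    have h4 := h2 1 A (by simp [hF', hA]) (T0 ⁻¹' A) (by
      simp only [hF', Finset.mem_union, Finset.mem_image]
      exact Or.inr (Or.inl ⟨A, hA, rfl⟩))
    rw [Function.iterate_one] at h4
    rw [h4]
    refine bad_bound N H hN hH _ ?_ (fun p => prob_le_one)
    intro p hp
    have hpl := p.isLt
    have hr : p.val % H < H := Nat.mod_lt _ (by omega)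
    have hdm := Nat.div_add_mod p.val H
    have e1 : (p.val + 1) / H = p.val / H := by
      conv_lhs => rw [← hdm, add_assoc, Nat.mul_add_div (by omega),
        Nat.div_eq_of_lt (by omega : p.val % H + 1 < H)]
      rfl
    have e2 : (p.val + 1) % H = p.val % H + 1 := by
      conv_lhs => rw [← hdm, add_assoc, Nat.mul_add_mod,
        Nat.mod_eq_of_lt (by omega : p.val % H + 1 < H)]
    have e3 : p.val + 1 < N * H := by
      rcases lt_or_eq_of_le (Nat.succ_le_of_lt hpl) with h | h
      · exact h
      · exfalso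
        have : (p.val + 1) % H = 0 := by
          rw [show p.val + 1 = N * H from h]
          exact Nat.mul_mod_left N H
        omega
    have e4 : (rot p 1).val = p.val + 1 := Nat.mod_eq_of_lt e3
    have : (T0^[((rot p 1).val / H) * n + (rot p 1).val % H] ⁻¹' A) =
        (T0^[(p.val / H) * n + p.val % H] ⁻¹' (T0 ⁻¹' A)) := by
      rw [e4, e1, e2, ← add_assoc]
      ext x
      simp only [mem_preimage]
      rw [Function.iterate_succ_apply']
    simp only [this, symmDiff_self]
    exact measure_empty
  · intro A hA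
    rw [h2 H A (by simp [hF', hA]) (T0^[n] ⁻¹' A) (by
      simp only [hF', Finset.mem_union, Finset.mem_image]
      exact Or.inr (Or.inr ⟨A, hA, rfl⟩))]
    conv_rhs => rw [← inv_mul_sum_const (N * H) (μ ((T0^[N * n] ⁻¹' A) ∆ A))]
    refine mul_le_mul' le_rfl (Finset.sum_le_sum fun p _ => ?_)
    have hpl := p.isLt
    have hr : p.val % H < H := Nat.mod_lt _ (by omega)
    have hdm := Nat.div_add_mod p.val H
    by_cases hp : p.val + H < N * H
    · have e4 : (rot p H).val = p.val + H := Nat.mod_eq_of_lt hp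
      have : (T0^[((rot p H).val / H) * n + (rot p H).val % H] ⁻¹' A) =
          (T0^[(p.val / H) * n + p.val % H] ⁻¹' (T0^[n] ⁻¹' A)) := by
        rw [e4, Nat.add_div_right _ (by omega), Nat.add_mod_right]
        ext x
        simp only [mem_preimage]
        rw [← Function.iterate_add_apply]
        have : p.val / H.succ * n = p.val / H.succ * n := rfl
        rw [show (p.val / H).succ * n + p.val % H = n + (p.val / H * n + p.val % H) by
          rw [Nat.succ_mul]; ring]
      rw [this, symmDiff_self]
      exact le_trans (le_of_eq measure_empty) zero_le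
    · have hq : p.val / H = N - 1 := by
        have h5 : p.val / H < N := Nat.div_lt_of_lt_mul (lt_of_lt_of_eq hpl (mul_comm N H))
        have h6 : N - 1 ≤ p.val / H := by
          rw [Nat.le_div_iff_mul_le (by omega)]
          have : (N - 1) * H + H = N * H := by
            rw [← Nat.succ_mul]
            congr 1
            omega
          omega
        omega
      have hNH' : (N - 1) * H + H = N * H := by
        rw [← Nat.succ_mul]
        congr 1
        omega
      have e4 : (rot p H).val = p.val % H := by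
        show (p.val + H) % (N * H) = p.val % H
        have : p.val + H = N * H + p.val % H := by
          rw [hq] at hdm
          have h8 : H * (N - 1) = (N - 1) * H := mul_comm _ _
          omega
        rw [this, Nat.add_mod_left, Nat.mod_eq_of_lt]
        calc p.val % H < H := hr
          _ ≤ N * H := Nat.le_mul_of_pos_left H (by omega)
      have e5 : (T0^[((rot p H).val / H) * n + (rot p H).val % H] ⁻¹' A) =
          (T0^[p.val % H] ⁻¹' A) := by
        rw [e4, Nat.div_eq_of_lt hr, Nat.mod_eq_of_lt hr, zero_mul, zero_add]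
      have e6 : (T0^[(p.val / H) * n + p.val % H] ⁻¹' (T0^[n] ⁻¹' A)) =
          (T0^[p.val % H] ⁻¹' (T0^[N * n] ⁻¹' A)) := by
        ext x
        simp only [mem_preimage]
        rw [← Function.iterate_add_apply, ← Function.iterate_add_apply, hq]
        have : n + ((N - 1) * n + p.val % H) = N * n + p.val % H := by
          have : (N - 1) * n + n = N * n := by
            rw [← Nat.succ_mul]
            congr 1
            omega
          omega
        rw [this]
      rw [e5, e6, ← preimage_symmDiff, symmDiff_comm,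
        (h0.iterate _).measure_preimage
          ((((h0.iterate _).measurable (hF A hA)).symmDiff (hF A hA)).nullMeasurableSet)]

theorem prod_symmDiff (μ : Measure X) [IsProbabilityMeasure μ] {A : Set X}
    (hA : MeasurableSet A) :
    (μ.prod μ) ((Prod.fst ⁻¹' A) ∆ (Prod.snd ⁻¹' A)) = μ A * μ Aᶜ + μ Aᶜ * μ A := by
  have h1 : ((Prod.fst ⁻¹' A) ∆ (Prod.snd ⁻¹' A) : Set (X × X)) = (A ×ˢ Aᶜ) ∪ (Aᶜ ×ˢ A) := by
    ext ⟨x, y⟩
    simp only [mem_symmDiff, mem_preimage, mem_union, mem_prod, mem_compl_iff]
    tauto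
  rw [h1, measure_union _ (hA.compl.prod hA), Measure.prod_prod, Measure.prod_prod]
  refine Set.disjoint_left.2 ?_
  rintro ⟨x, y⟩ h h'
  exact h'.1 h.1

theorem mixing_approx [StandardBorelSpace X] (μ : Measure X) [IsProbabilityMeasure μ]
    [NullSingletonClass μ] (T0 : X ≃ᵐ X) (h0 : MeasurePreserving T0 μ μ) (H : ℕ)
    (hH : 1 ≤ H) (F : Finset (Set X)) (hF : ∀ A ∈ F, MeasurableSet A) :
    ∃ T : X ≃ᵐ X, MeasurePreserving T μ μ ∧
      (∀ A ∈ F, μ ((T ⁻¹' A) ∆ (T0 ⁻¹' A)) ≤ (H : ℝ≥0∞)⁻¹) ∧
      (∀ A ∈ F, μ ((T^[H] ⁻¹' A) ∆ A) = μ A * μ Aᶜ + μ Aᶜ * μ A) := by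
  classical
  have hNH : NeZero (2 * H) := ⟨by positivity⟩
  set F' : Finset (Set X) := F ∪ (F.image (fun A => T0 ⁻¹' A)) with hF'
  have hF'm : ∀ A ∈ F', MeasurableSet A := by
    intro A hA
    simp only [hF', Finset.mem_union, Finset.mem_image] at hA
    rcases hA with hA | ⟨B, hB, rfl⟩
    · exact hF A hA
    · exact T0.measurable (hF B hB)
  have hnull : NullSingletonClass (μ.prod μ) := by
    refine ⟨fun x => ?_⟩
    rw [← Set.singleton_prod_singleton, Measure.prod_prod, measure_singleton, zero_mul]
  obtain ⟨T, h1, h2, h3⟩ := tower_main μ (μ.prod μ) (2 * H)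
    (fun p => if p.val < H then T0^[p.val] ∘ Prod.fst else T0^[p.val - H] ∘ Prod.snd)
    (fun p => by
      by_cases h : p.val < H
      · rw [if_pos h]
        exact (h0.iterate _).comp measurePreserving_fst
      · rw [if_neg h]
        exact (h0.iterate _).comp measurePreserving_snd) F' hF'm
  refine ⟨T, h1, ?_, ?_⟩
  · intro A hA
    have h4 := h2 1 A (by simp [hF', hA]) (T0 ⁻¹' A) (by
      simp only [hF', Finset.mem_union, Finset.mem_image]
      exact Or.inr ⟨A, hA, rfl⟩)
    rw [Function.iterate_one] at h4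
    rw [h4]
    refine bad_bound 2 H (by norm_num) hH _ ?_ (fun p => prob_le_one)
    intro p hp
    have hpl := p.isLt
    by_cases hlt : p.val < H
    · rw [Nat.mod_eq_of_lt hlt] at hp
      have e4 : (rot p 1).val = p.val + 1 := Nat.mod_eq_of_lt (by omega)
      have : p.val + 1 < H := by omega
      rw [e4, if_pos this, if_pos hlt]
      have e5 : (T0^[p.val + 1] ∘ Prod.fst ⁻¹' A : Set (X × X)) =
          (T0^[p.val] ∘ Prod.fst) ⁻¹' (T0 ⁻¹' A) := by
        ext x
        simp only [mem_preimage, Function.comp_apply]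
        rw [Function.iterate_succ_apply']
      rw [e5, symmDiff_self]
      exact measure_empty
    · have e6 : p.val % H = p.val - H := by
        rw [Nat.mod_eq_sub_mod (by omega), Nat.mod_eq_of_lt (by omega)]
      rw [e6] at hp
      have e4 : (rot p 1).val = p.val + 1 := Nat.mod_eq_of_lt (by omega)
      have : ¬ p.val + 1 < H := by omega
      rw [e4, if_neg this, if_neg hlt]
      have e5 : (T0^[p.val + 1 - H] ∘ Prod.snd ⁻¹' A : Set (X × X)) =
          (T0^[p.val - H] ∘ Prod.snd) ⁻¹' (T0 ⁻¹' A) := by
        ext x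
        simp only [mem_preimage, Function.comp_apply]
        rw [show p.val + 1 - H = (p.val - H) + 1 by omega, Function.iterate_succ_apply']
      rw [e5, symmDiff_self]
      exact measure_empty
  · intro A hA
    rw [h2 H A (by simp [hF', hA]) A (by simp [hF', hA])]
    conv_rhs => rw [← inv_mul_sum_const (2 * H) (μ A * μ Aᶜ + μ Aᶜ * μ A)]
    congr 1
    refine Finset.sum_congr rfl fun p _ => ?_
    have hpl := p.isLt
    by_cases hlt : p.val < H
    · have e4 : (rot p H).val = p.val + H := Nat.mod_eq_of_lt (by omega)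
      rw [e4, if_neg (by omega), if_pos hlt, Nat.add_sub_cancel, preimage_comp, preimage_comp,
        symmDiff_comm, prod_symmDiff μ ((h0.iterate _).measurable (hF A hA)), ← preimage_compl,
        (h0.iterate _).measure_preimage (hF A hA).nullMeasurableSet,
        (h0.iterate _).measure_preimage (hF A hA).compl.nullMeasurableSet]
    · have e4 : (rot p H).val = p.val - H := by
        show (p.val + H) % (2 * H) = p.val - H
        rw [Nat.mod_eq_sub_mod (by omega), Nat.mod_eq_of_lt (by omega)]
        omega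
      rw [e4, if_pos (by omega), if_neg hlt, preimage_comp, preimage_comp,
        prod_symmDiff μ ((h0.iterate _).measurable (hF A hA)), ← preimage_compl,
        (h0.iterate _).measure_preimage (hF A hA).nullMeasurableSet,
        (h0.iterate _).measure_preimage (hF A hA).compl.nullMeasurableSet]

end Pool.Agent.H98R3.PF
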