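import Pool.Agent.H98R3.PF.Generic

open MeasureTheory Set Filter ProbabilityTheory
open scoped Topology ENNReal symmDiff

namespace Pool.Agent.H98R3.PF

variable {α : Type*} [mα : MeasurableSpace α] {μ : Measure α}

theorem D_union [IsFiniteMeasure μ] (A B A' B' : Set α) :
    D μ (A ∪ B) (A' ∪ B') ≤ D μ A A' + D μ B B' := by
  unfold D
  refine (measureReal_mono ?_ (measure_ne_top _ _)).trans (measureReal_union_le _ _)
  intro x hx
  simp only [mem_symmDiff, mem_union] at hx ⊢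
  tauto

theorem D_biUnion [IsFiniteMeasure μ] (N : ℕ) (A B : ℕ → Set α) :
    D μ (⋃ l ∈ Finset.range N, A l) (⋃ l ∈ Finset.range N, B l) ≤
      ∑ l ∈ Finset.range N, D μ (A l) (B l) := by
  induction N with
  | zero => simp [D_self]
  | succ N ih =>
    rw [Finset.range_add_one, Finset.set_biUnion_insert, Finset.set_biUnion_insert,
      Finset.sum_insert (by simp)]
    exact (D_union _ _ _ _).trans (by gcongr)

theorem D_zero_iff [IsFiniteMeasure μ] {A B : Set α} : D μ A B = 0 ↔ μ (A ∆ B) = 0 := by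
  unfold D
  rw [measureReal_eq_zero_iff]

/-- `P` is the class of measurable sets of a sub-sigma-algebra. -/
structure SA (P : Set α → Prop) : Prop where
  sub : ∀ s, P s → MeasurableSet s
  empty : P ∅
  compl : ∀ s, P s → P sᶜ
  iU : ∀ f : ℕ → Set α, (∀ i, P (f i)) → P (⋃ i, f i)

theorem SA.iI {P : Set α → Prop} (h : SA P) (f : ℕ → Set α) (hf : ∀ i, P (f i)) :
    P (⋂ i, f i) := by
  have : (⋂ i, f i) = (⋃ i, (f i)ᶜ)ᶜ := by simp
  rw [this]
  exact h.compl _ (h.iU _ fun i => h.compl _ (hf i))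

theorem SA.union {P : Set α → Prop} (h : SA P) {A B : Set α} (hA : P A) (hB : P B) :
    P (A ∪ B) := by
  have : A ∪ B = ⋃ i : ℕ, (if i = 0 then A else B) := by
    ext x
    simp only [mem_union, mem_iUnion]
    constructor
    · rintro (hx | hx)
      · exact ⟨0, by simpa using hx⟩
      · exact ⟨1, by simpa using hx⟩
    · rintro ⟨i, hi⟩
      split_ifs at hi with h'
      · exact Or.inl hi
      · exact Or.inr hi
  rw [this]
  refine h.iU _ fun i => ?_
  split_ifs
  · exact hA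
  · exact hB

theorem SA.inter {P : Set α → Prop} (h : SA P) {A B : Set α} (hA : P A) (hB : P B) :
    P (A ∩ B) := by
  have : A ∩ B = (Aᶜ ∪ Bᶜ)ᶜ := by
    rw [compl_union, compl_compl, compl_compl]
  rw [this]
  exact h.compl _ (h.union (h.compl _ hA) (h.compl _ hB))

theorem SA.biU {P : Set α → Prop} (h : SA P) (N : ℕ) (A : ℕ → Set α) (hA : ∀ l, P (A l)) :
    P (⋃ l ∈ Finset.range N, A l) := by
  induction N with
  | zero => simpa using h.empty
  | succ N ih =>
    rw [Finset.range_add_one, Finset.set_biUnion_insert]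
    exact h.union (hA N) ih

theorem complete [IsFiniteMeasure μ] {P : Set α → Prop} (hP : SA P) (s : ℕ → Set α)
    (hs : ∀ j, P (s j))
    (hc : ∀ e : ℝ, 0 < e → ∃ J, ∀ j, J ≤ j → D μ (s j) (s J) < e) :
    ∃ E, P E ∧ Tendsto (fun j => D μ (s j) E) atTop (𝓝 0) := by
  choose J hJ using fun k : ℕ => hc ((1 / 2) ^ k) (by positivity)
  set φ : ℕ → ℕ := fun k => (Finset.range (k + 1)).sup J with hφ
  have hφ1 : ∀ k, J k ≤ φ k := fun k => Finset.le_sup (f := J) (by simp)
  have hφ2 : ∀ k, J k ≤ φ (k + 1) := fun k =>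
    Finset.le_sup (f := J) (Finset.mem_range.2 (by omega))
  have hstep : ∀ k, D μ (s (φ k)) (s (φ (k + 1))) ≤ 2 * (1 / 2) ^ k := by
    intro k
    have h1 := hJ k _ (hφ1 k)
    have h2 := hJ k _ (hφ2 k)
    have h3 := D_tri (μ := μ) (s (φ k)) (s (J k)) (s (φ (k + 1)))
    rw [D_comm (s (J k)) (s (φ (k + 1)))] at h3
    linarith
  set E : Set α := ⋂ k, ⋃ l, s (φ (k + l)) with hE
  have hEm : P E := hP.iI _ fun k => hP.iU _ fun l => hs _
  have hsub : ∀ k, s (φ k) ∆ E ⊆ ⋃ l, s (φ (k + l)) ∆ s (φ (k + l + 1)) := by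
    intro k x hx
    by_contra hcon
    simp only [mem_iUnion, not_exists, mem_symmDiff] at hcon
    have hall : ∀ l, (x ∈ s (φ (k + l)) ↔ x ∈ s (φ k)) := by
      intro l
      induction l with
      | zero => simp
      | succ l ih =>
        have := hcon l
        rw [← ih]
        rw [← add_assoc]
        tauto
    simp only [mem_symmDiff, hE, mem_iInter, mem_iUnion, not_forall, not_exists] at hx
    rcases hx with ⟨h1, k', h2⟩ | ⟨h1, h2⟩
    · have := h2 k
      rw [add_comm, hall] at this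
      exact this h1
    · obtain ⟨l, hl⟩ := h1 k
      rw [hall] at hl
      exact h2 hl
  have hDE : ∀ k, D μ (s (φ k)) E ≤ 4 * (1 / 2) ^ k := by
    intro k
    have h1 : μ (s (φ k) ∆ E) ≤ ENNReal.ofReal (4 * (1 / 2) ^ k) := by
      calc μ (s (φ k) ∆ E) ≤ μ (⋃ l, s (φ (k + l)) ∆ s (φ (k + l + 1))) :=
            measure_mono (hsub k)
        _ ≤ ∑' l, μ (s (φ (k + l)) ∆ s (φ (k + l + 1))) := measure_iUnion_le _
        _ ≤ ∑' l, ENNReal.ofReal (2 * (1 / 2) ^ (k + l)) := by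
            refine ENNReal.tsum_le_tsum fun l => ?_
            rw [← ENNReal.ofReal_toReal (measure_ne_top μ (s (φ (k + l)) ∆ s (φ (k + l + 1))))]
            exact ENNReal.ofReal_le_ofReal (hstep (k + l))
        _ = ENNReal.ofReal (4 * (1 / 2) ^ k) := by
            have hsum : Summable (fun l : ℕ => 2 * (1 / 2 : ℝ) ^ (k + l)) := by
              simp only [pow_add]
              exact (summable_geometric_two.mul_left _).mul_left _
            rw [← ENNReal.ofReal_tsum_of_nonneg (fun l => by positivity) hsum]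
            congr 1
            simp only [pow_add]
            rw [tsum_mul_left, tsum_mul_left, tsum_geometric_two]
            ring
    have h2 := ENNReal.toReal_mono ENNReal.ofReal_ne_top h1
    rwa [ENNReal.toReal_ofReal (by positivity)] at h2
  refine ⟨E, hEm, ?_⟩
  rw [Metric.tendsto_atTop]
  intro e he
  obtain ⟨k, hk⟩ := exists_pow_lt_of_lt_one (show (0 : ℝ) < e / 6 by positivity)
    (by norm_num : (1 / 2 : ℝ) < 1)
  refine ⟨J k, fun j hj => ?_⟩
  rw [Real.dist_eq, sub_zero, abs_of_nonneg (D_nonneg _ _)]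
  have h1 := hJ k _ (hφ1 k)
  have h2 := hJ k _ hj
  have h3 := D_tri (μ := μ) (s j) (s (J k)) E
  have h4 := D_tri (μ := μ) (s (J k)) (s (φ k)) E
  have h5 := hDE k
  rw [D_comm (s (J k)) (s (φ k))] at h4
  linarith

section Main

variable [IsProbabilityMeasure μ] (T : Au μ) {B : ℕ → Set α} (hB : ∀ i, MeasurableSet (B i))
  (hd : ∀ A, MeasurableSet A → ∀ e : ℝ, 0 < e → ∃ i, D μ A (B i) < e)

include hB hd

theorem P3_all (h3 : P3 B T) {A : Set α} (hA : MeasurableSet A) {e : ℝ} (he : 0 < e) :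
    ∃ n, |D μ (pw T n A) A - 2 * μ.real A * (1 - μ.real A)| < e := by
  obtain ⟨i, hi⟩ := hd A hA (e / 8) (by positivity)
  obtain ⟨m, hm⟩ := exists_pow_lt_of_lt_one (show (0 : ℝ) < e / 2 by positivity)
    (by norm_num : (1 / 2 : ℝ) < 1)
  obtain ⟨n, hn⟩ := h3 i m
  refine ⟨n, ?_⟩
  have h1 : |D μ (pw T n A) A - D μ (pw T n (B i)) (B i)| ≤ 2 * D μ A (B i) := by
    have e1 := D_tri (μ := μ) (pw T n A) (pw T n (B i)) A
    have e2 := D_tri (μ := μ) (pw T n (B i)) (B i) A
    have e3 := D_tri (μ := μ) (pw T n (B i)) (pw T n A) (B i)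
    have e4 := D_tri (μ := μ) (pw T n A) A (B i)
    have e5 := pw_D T n hA (hB i)
    rw [D_comm (B i) A] at e2
    rw [D_comm (pw T n (B i)) (pw T n A)] at e3
    rw [abs_le]
    constructor <;> linarith
  have h2 := abs_meas_sub_le (μ := μ) hA (hB i)
  have a0 : 0 ≤ μ.real A := measureReal_nonneg
  have a1 : μ.real A ≤ 1 := measureReal_le_one
  have b0 : 0 ≤ μ.real (B i) := measureReal_nonneg
  have b1 : μ.real (B i) ≤ 1 := measureReal_le_one
  have h4 : |2 * μ.real A * (1 - μ.real A) - 2 * μ.real (B i) * (1 - μ.real (B i))| ≤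
      2 * D μ A (B i) := by
    have : 2 * μ.real A * (1 - μ.real A) - 2 * μ.real (B i) * (1 - μ.real (B i)) =
      2 * ((μ.real A - μ.real (B i)) * (1 - μ.real A - μ.real (B i))) := by ring
    rw [this, abs_mul, abs_mul, abs_of_pos (by norm_num : (0 : ℝ) < 2)]
    have h5 : |1 - μ.real A - μ.real (B i)| ≤ 1 := by
      rw [abs_le]
      constructor <;> linarith
    have h6 : |μ.real A - μ.real (B i)| * |1 - μ.real A - μ.real (B i)| ≤ D μ A (B i) * 1 :=
      mul_le_mul h2 h5 (abs_nonneg _) (D_nonneg _ _)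
    linarith
  rw [abs_le] at h1 h4
  rw [abs_lt] at hn ⊢
  constructor <;> linarith [h1.1, h1.2, h4.1, h4.2, hn.1, hn.2]

theorem moved (h3 : P3 B T) {A : Set α} (hA : MeasurableSet A) (h0 : 0 < μ.real A)
    (h1 : μ.real A < 1) : 0 < D μ (pw T 1 A) A := by
  by_contra hcon
  have hz : D μ (pw T 1 A) A = 0 := le_antisymm (not_lt.1 hcon) (D_nonneg _ _)
  have hall : ∀ n, D μ (pw T n A) A = 0 := by
    intro n
    induction n with
    | zero => rw [pw_zero, D_self]
    | succ n ih =>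
      refine le_antisymm ?_ (D_nonneg _ _)
      have e1 := D_tri (μ := μ) (pw T (n + 1) A) (pw T n A) A
      have e2 : D μ (pw T (n + 1) A) (pw T n A) = 0 := by
        rw [add_comm, ← pw_pw, pw_D T n (pw_meas T 1 hA) hA, hz]
      linarith
  have hp : 0 < 2 * μ.real A * (1 - μ.real A) := by
    have : 0 < 1 - μ.real A := by linarith
    positivity
  obtain ⟨n, hn⟩ := P3_all T hB hd h3 hA hp
  rw [hall, zero_sub, abs_neg, abs_of_pos hp] at hn
  exact lt_irrefl _ hn

omit hB hd in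
theorem inv_iter {P : Set α → Prop} (hP : SA P)
    (hinv : ∀ s, P s → ∃ t, P t ∧ D μ (pw T 1 s) t = 0) (n : ℕ) :
    ∀ s, P s → ∃ t, P t ∧ D μ (pw T n s) t = 0 := by
  induction n with
  | zero => exact fun s hs => ⟨s, hs, by rw [pw_zero, D_self]⟩
  | succ n ih =>
    intro s hs
    obtain ⟨t1, h1, h2⟩ := hinv s hs
    obtain ⟨t2, h3, h4⟩ := ih t1 h1
    refine ⟨t2, h3, le_antisymm ?_ (D_nonneg _ _)⟩
    have e1 := D_tri (μ := μ) (pw T (n + 1) s) (pw T n t1) t2
    have e2 : D μ (pw T (n + 1) s) (pw T n t1) = 0 := by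
      rw [add_comm, ← pw_pw, pw_D T n (pw_meas T 1 (hP.sub s hs)) (hP.sub t1 h1), h2]
    linarith

omit hB hd T in
theorem inter_formula {A C : Set α} (hA : MeasurableSet A) (hC : MeasurableSet C) :
    2 * μ.real (A ∩ C) = μ.real A + μ.real C - D μ A C := by
  have h1 : μ.real (A ∆ C) = μ.real (A \ C) + μ.real (C \ A) := by
    rw [Set.symmDiff_def, measureReal_union _ (hC.diff hA)]
    exact disjoint_sdiff_sdiff
  have h2 := measureReal_inter_add_diff (μ := μ) (s := A) hC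
  have h3 := measureReal_inter_add_diff (μ := μ) (s := C) hA
  rw [inter_comm C A] at h3
  unfold D
  linarith

theorem small_step (h3 : P3 B T) {P : Set α → Prop} (hP : SA P)
    (hinv : ∀ s, P s → ∃ t, P t ∧ D μ (pw T 1 s) t = 0)
    {C : Set α} (hC : P C) (h0 : 0 < μ.real C) (h1 : μ.real C < 1) :
    ∃ C', P C' ∧ 0 < μ.real C' ∧ μ.real C' ≤ μ.real C * ((1 + μ.real C) / 2) := by
  set c := μ.real C with hc
  have he : 0 < min (c ^ 2) (c - c ^ 2) := lt_min (by positivity) (by nlinarith)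
  have hCm := hP.sub C hC
  obtain ⟨n, hn⟩ := P3_all T hB hd h3 hCm he
  obtain ⟨t, ht, h4⟩ := inv_iter T hP hinv n C hC
  have htm := hP.sub t ht
  refine ⟨C ∩ t, hP.inter hC ht, ?_⟩
  have h5 := inter_formula (μ := μ) hCm htm
  have h6 : μ.real t = c := by
    have e1 := abs_meas_sub_le (μ := μ) (pw_meas T n hCm) htm
    rw [h4] at e1
    have e2 : μ.real (pw T n C) = c := by
      rw [hc, measureReal_def, measureReal_def]
      congr 1
      exact (T.mp.iterate n).measure_preimage hCm.nullMeasurableSet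
    have e3 := abs_nonpos_iff.1 e1
    linarith
  have h7 : D μ C t = D μ (pw T n C) C := by
    have e1 := D_tri (μ := μ) (pw T n C) t C
    have e2 := D_tri (μ := μ) t (pw T n C) C
    rw [D_comm t (pw T n C)] at e2
    rw [D_comm C t]
    linarith
  rw [h6, h7, ← hc] at h5
  have h8 := min_le_left (c ^ 2) (c - c ^ 2)
  have h9 := min_le_right (c ^ 2) (c - c ^ 2)
  rw [← hc, abs_lt] at hn
  constructor
  · nlinarith [hn.1, hn.2]
  · nlinarith [hn.1, hn.2]

theorem small (h3 : P3 B T) {P : Set α → Prop} (hP : SA P)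
    (hinv : ∀ s, P s → ∃ t, P t ∧ D μ (pw T 1 s) t = 0)
    {C : Set α} (hC : P C) (h0 : 0 < μ.real C) (h1 : μ.real C < 1)
    {e : ℝ} (he : 0 < e) :
    ∃ C', P C' ∧ 0 < μ.real C' ∧ μ.real C' < e := by
  set c := μ.real C with hc
  have hr1 : (1 + c) / 2 < 1 := by linarith
  have hr0 : 0 ≤ (1 + c) / 2 := by linarith
  have key : ∀ k : ℕ, ∃ C', P C' ∧ 0 < μ.real C' ∧
      μ.real C' ≤ c * ((1 + c) / 2) ^ k := by
    intro k
    induction k with
    | zero => exact ⟨C, hC, h0, by simp [hc]⟩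
    | succ k ih =>
      obtain ⟨C1, h2, h4, h5⟩ := ih
      have h6 : ((1 + c) / 2) ^ k ≤ 1 := pow_le_one₀ hr0 hr1.le
      have h7 : μ.real C1 ≤ c := h5.trans (by nlinarith)
      obtain ⟨C2, h8, h9, h10⟩ := small_step T hB hd h3 hP hinv h2 h4 (h7.trans_lt h1)
      refine ⟨C2, h8, h9, ?_⟩
      calc μ.real C2 ≤ μ.real C1 * ((1 + μ.real C1) / 2) := h10
        _ ≤ (c * ((1 + c) / 2) ^ k) * ((1 + c) / 2) := by
            gcongr
        _ = c * ((1 + c) / 2) ^ (k + 1) := by ring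
  obtain ⟨k, hk⟩ := exists_pow_lt_of_lt_one he hr1
  obtain ⟨C', h4, h5, h6⟩ := key k
  refine ⟨C', h4, h5, h6.trans_lt ?_⟩
  have : 0 ≤ ((1 + c) / 2) ^ k := by positivity
  nlinarith

theorem exists_seq (h1 : P1 B T) (h2 : P2 B T) {A : Set α} (hA : MeasurableSet A)
    (hmov : 0 < D μ (pw T 1 A) A) :
    ∃ N : ℕ, 1 ≤ N ∧ ∃ n : ℕ → ℕ,
      (∀ C, MeasurableSet C → ∀ e : ℝ, 0 < e →
        ∃ J, ∀ j, J ≤ j → D μ (pw T (n j) C) (pw T (n J) C) < e) ∧
      (∀ C, MeasurableSet C → Tendsto (fun j => D μ (pw T (N * n j) C) C) atTop (𝓝 0)) ∧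
      ∃ c : ℝ, 0 < c ∧ ∀ j, c ≤ D μ (pw T (n j) A) A := by
  set c := D μ (pw T 1 A) A with hc
  obtain ⟨i0, hi0⟩ := hd A hA (c / 8) (by positivity)
  obtain ⟨m1, hm1⟩ := exists_pow_lt_of_lt_one (show (0 : ℝ) < c / 8 by positivity)
    (by norm_num : (1 / 2 : ℝ) < 1)
  set m0 := max (i0 + 1) m1 with hm0
  have hm0' : (1 / 2 : ℝ) ^ m0 < c / 8 :=
    (pow_le_pow_of_le_one (by norm_num) (by norm_num) (le_max_right _ _)).trans_lt hm1
  have hi0m : i0 < m0 := lt_of_lt_of_le (Nat.lt_succ_self i0) (le_max_left _ _)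
  obtain ⟨N, hN, hN1⟩ := h1 m0
  have hstep : ∀ j x : ℕ, ∃ x' : ℕ,
      (∀ i < m0 + j, D μ (pw T (N * x) (B i)) (B i) < (1 / 2) ^ (m0 + j)) →
      (∀ i < m0 + j, D μ (pw T x' (B i)) (pw T x (B i)) < (1 / 2) ^ (m0 + j)) ∧
        ∀ i < m0 + (j + 1), D μ (pw T (N * x') (B i)) (B i) < (1 / 2) ^ (m0 + (j + 1)) := by
    intro j x
    by_cases h : ∀ i < m0 + j, D μ (pw T (N * x) (B i)) (B i) < (1 / 2) ^ (m0 + j)
    · obtain ⟨x', h5, h6⟩ := h2 N hN x (m0 + j) h
      exact ⟨x', fun _ => ⟨h5, h6⟩⟩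
    · exact ⟨0, fun h' => absurd h' h⟩
  choose g hg using hstep
  set n : ℕ → ℕ := fun j => Nat.rec 1 (fun j x => g j x) j with hn
  have hn0 : n 0 = 1 := rfl
  have hns : ∀ j, n (j + 1) = g j (n j) := fun j => rfl
  have hP : ∀ j, ∀ i < m0 + j, D μ (pw T (N * n j) (B i)) (B i) < (1 / 2) ^ (m0 + j) := by
    intro j
    induction j with
    | zero =>
      rw [hn0, mul_one]
      exact hN1
    | succ j ih =>
      rw [hns]
      exact (hg j (n j) ih).2
  have hQ : ∀ j, ∀ i < m0 + j, D μ (pw T (n (j + 1)) (B i)) (pw T (n j) (B i)) <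
      (1 / 2) ^ (m0 + j) := by
    intro j
    rw [hns]
    exact (hg j (n j) (hP j)).1
  have hfar : ∀ j0 k, ∀ i < m0 + j0, D μ (pw T (n (j0 + k)) (B i)) (pw T (n j0) (B i)) ≤
      2 * (1 / 2) ^ (m0 + j0) - 2 * (1 / 2) ^ (m0 + j0 + k) := by
    intro j0 k
    induction k with
    | zero =>
      intro i hi
      rw [add_zero, D_self, add_zero, sub_self]
    | succ k ih =>
      intro i hi
      have e1 := ih i hi
      have e2 := hQ (j0 + k) i (by omega)
      have e3 := D_tri (μ := μ) (pw T (n (j0 + (k + 1))) (B i)) (pw T (n (j0 + k)) (B i))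
        (pw T (n j0) (B i))
      rw [← add_assoc] at e3 ⊢
      rw [show m0 + (j0 + k) = m0 + j0 + k by ring] at e2
      have e4 : (1 / 2 : ℝ) ^ (m0 + j0 + (k + 1)) = (1 / 2) ^ (m0 + j0 + k) / 2 := by
        rw [← add_assoc, pow_succ]
        ring
      rw [e4]
      linarith
  have hfar' : ∀ j0 j, j0 ≤ j → ∀ i < m0 + j0,
      D μ (pw T (n j) (B i)) (pw T (n j0) (B i)) ≤ 2 * (1 / 2) ^ (m0 + j0) := by
    intro j0 j hj i hi
    obtain ⟨k, rfl⟩ := Nat.exists_eq_add_of_le hj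
    have := hfar j0 k i hi
    have h9 : (0 : ℝ) ≤ 2 * (1 / 2) ^ (m0 + j0 + k) := by positivity
    linarith
  refine ⟨N, hN, n, ?_, ?_, c / 4, by positivity, ?_⟩
  · intro C hC e he
    obtain ⟨i, hi⟩ := hd C hC (e / 4) (by positivity)
    obtain ⟨k, hk⟩ := exists_pow_lt_of_lt_one (show (0 : ℝ) < e / 4 by positivity)
      (by norm_num : (1 / 2 : ℝ) < 1)
    refine ⟨max (i + 1) k, fun j hj => ?_⟩
    have e1 := hfar' _ j hj i (by
      have := le_max_left (i + 1) k
      omega)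
    have e2 : (1 / 2 : ℝ) ^ (m0 + max (i + 1) k) ≤ (1 / 2) ^ k :=
      pow_le_pow_of_le_one (by norm_num) (by norm_num) (by
        have := le_max_right (i + 1) k
        omega)
    have e3 := D_tri (μ := μ) (pw T (n j) C) (pw T (n j) (B i)) (pw T (n (max (i + 1) k)) C)
    have e4 := D_tri (μ := μ) (pw T (n j) (B i)) (pw T (n (max (i + 1) k)) (B i))
      (pw T (n (max (i + 1) k)) C)
    rw [pw_D T _ hC (hB i)] at e3
    rw [pw_D T (n (max (i + 1) k)) (hB i) hC, D_comm (B i) C] at e4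
    linarith
  · intro C hC
    rw [Metric.tendsto_atTop]
    intro e he
    obtain ⟨i, hi⟩ := hd C hC (e / 4) (by positivity)
    obtain ⟨k, hk⟩ := exists_pow_lt_of_lt_one (show (0 : ℝ) < e / 4 by positivity)
      (by norm_num : (1 / 2 : ℝ) < 1)
    refine ⟨max (i + 1) k, fun j hj => ?_⟩
    rw [Real.dist_eq, sub_zero, abs_of_nonneg (D_nonneg _ _)]
    have e1 := hP j i (by
      have := le_max_left (i + 1) k
      omega)
    have e2 : (1 / 2 : ℝ) ^ (m0 + j) ≤ (1 / 2) ^ k :=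
      pow_le_pow_of_le_one (by norm_num) (by norm_num) (by
        have := le_max_right (i + 1) k
        omega)
    have e3 := D_tri (μ := μ) (pw T (N * n j) C) (pw T (N * n j) (B i)) C
    have e4 := D_tri (μ := μ) (pw T (N * n j) (B i)) (B i) C
    rw [pw_D T _ hC (hB i)] at e3
    rw [D_comm (B i) C] at e4
    linarith
  · intro j
    have e1 := hfar' 0 j (Nat.zero_le j) i0 (by omega)
    rw [hn0, add_zero] at e1
    have e2 := D_tri (μ := μ) (pw T 1 A) (pw T 1 (B i0)) A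
    have e3 := D_tri (μ := μ) (pw T 1 (B i0)) (pw T (n j) (B i0)) A
    have e4 := D_tri (μ := μ) (pw T (n j) (B i0)) (pw T (n j) A) A
    rw [pw_D T 1 hA (hB i0)] at e2
    rw [D_comm (pw T 1 (B i0)) (pw T (n j) (B i0))] at e3
    rw [pw_D T (n j) (hB i0) hA, D_comm (B i0) A] at e4
    linarith

omit hB hd in
theorem pw_mul_D (a b l : ℕ) {C : Set α} (hC : MeasurableSet C) :
    D μ (pw T (l * a) C) (pw T (l * b) C) ≤ l * D μ (pw T a C) (pw T b C) := by
  induction l with
  | zero => simp [D_self]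
  | succ l ih =>
    have e1 := D_tri (μ := μ) (pw T ((l + 1) * a) C) (pw T (l * a + b) C) (pw T ((l + 1) * b) C)
    have e2 : D μ (pw T ((l + 1) * a) C) (pw T (l * a + b) C) = D μ (pw T a C) (pw T b C) := by
      rw [show (l + 1) * a = a + l * a by ring, show l * a + b = b + l * a by ring, ← pw_pw,
        ← pw_pw, pw_D T _ (pw_meas T a hC) (pw_meas T b hC)]
    have e3 : D μ (pw T (l * a + b) C) (pw T ((l + 1) * b) C) =
        D μ (pw T (l * a) C) (pw T (l * b) C) := by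
      rw [show (l + 1) * b = l * b + b by ring, ← pw_pw, ← pw_pw,
        pw_D T _ (pw_meas T _ hC) (pw_meas T _ hC)]
    push_cast
    linarith

end Main

end Pool.Agent.H98R3.PF
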