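import Pool.Agent.H98R3.PF.Det

open MeasureTheory Set Filter ProbabilityTheory
open scoped Topology ENNReal symmDiff

namespace Pool.Agent.H98R3.PF

variable {α : Type*} [mα : MeasurableSpace α] {μ : Measure α}

/-- The asymptotically fixed sets of a sub-sigma-algebra. -/
def GP (P : Set α → Prop) (T : Au μ) (n : ℕ → ℕ) (s : Set α) : Prop :=
  P s ∧ Tendsto (fun j => D μ (pw T (n j) s) s) atTop (𝓝 0)

theorem pw_compl (T : Au μ) (n : ℕ) (A : Set α) : pw T n Aᶜ = (pw T n A)ᶜ := rfl

theorem pw_union (T : Au μ) (n : ℕ) (A B : Set α) : pw T n (A ∪ B) = pw T n A ∪ pw T n B := rfl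

theorem pw_biU (T : Au μ) (n N : ℕ) (A : ℕ → Set α) :
    pw T n (⋃ l ∈ Finset.range N, A l) = ⋃ l ∈ Finset.range N, pw T n (A l) := by
  unfold pw
  simp only [preimage_iUnion]

theorem D_compl (A B : Set α) : D μ Aᶜ Bᶜ = D μ A B := by
  unfold D
  rw [compl_symmDiff_compl]

theorem GP_SA [IsProbabilityMeasure μ] {P : Set α → Prop} (hP : SA P) (T : Au μ) (n : ℕ → ℕ) :
    SA (GP P T n) := by
  have hempty : GP P T n ∅ := by
    refine ⟨hP.empty, ?_⟩
    have : ∀ j, D μ (pw T (n j) ∅) ∅ = 0 := fun j => by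
      show D μ ∅ ∅ = 0
      exact D_self _
    simp only [this]
    exact tendsto_const_nhds
  have hunion : ∀ A B, GP P T n A → GP P T n B → GP P T n (A ∪ B) := by
    intro A B hA hB
    refine ⟨hP.union hA.1 hB.1, ?_⟩
    have hlim : Tendsto (fun j => D μ (pw T (n j) A) A + D μ (pw T (n j) B) B) atTop (𝓝 0) := by
      simpa using hA.2.add hB.2
    refine squeeze_zero (fun j => D_nonneg _ _) (fun j => ?_) hlim
    rw [pw_union]
    exact D_union _ _ _ _
  refine ⟨fun s hs => hP.sub s hs.1, hempty, ?_, ?_⟩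
  · intro s hs
    refine ⟨hP.compl s hs.1, ?_⟩
    simp only [pw_compl, D_compl]
    exact hs.2
  · intro f hf
    refine ⟨hP.iU f fun i => (hf i).1, ?_⟩
    set E : Set α := ⋃ i, f i with hE
    have hEm : MeasurableSet E := hP.sub _ (hP.iU f fun i => (hf i).1)
    have hacc : ∀ K, GP P T n (accumulate f K) := by
      intro K
      induction K with
      | zero => simpa [accumulate] using hf 0
      | succ K ih =>
        rw [accumulate_succ]
        exact hunion _ _ ih (hf (K + 1))
    have hlim := tendsto_measure_iUnion_accumulate (μ := μ) (f := f)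
    rw [Metric.tendsto_atTop]
    intro e he
    have hclose : ∃ K, D μ (accumulate f K) E < e / 4 := by
      have h1 : Tendsto (fun i => μ.real (accumulate f i)) atTop (𝓝 (μ.real E)) :=
        (ENNReal.tendsto_toReal (measure_ne_top μ _)).comp hlim
      obtain ⟨K, hK⟩ := ((Metric.tendsto_atTop.1 h1) (e / 4) (by positivity))
      refine ⟨K, ?_⟩
      have h2 := hK K le_rfl
      have hsub : accumulate f K ⊆ E := accumulate_subset_iUnion K
      have hKm := hP.sub _ (hacc K).1
      have h3 : D μ (accumulate f K) E = μ.real E - μ.real (accumulate f K) := by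
        unfold D
        rw [Set.symmDiff_def, sdiff_eq_empty.2 hsub, empty_union, measureReal_sdiff hsub hKm]
      rw [h3]
      rw [Real.dist_eq, abs_sub_comm] at h2
      exact (le_abs_self _).trans_lt h2
    obtain ⟨K, hK⟩ := hclose
    obtain ⟨J, hJ⟩ := (Metric.tendsto_atTop.1 (hacc K).2) (e / 4) (by positivity)
    refine ⟨J, fun j hj => ?_⟩
    have h1 := hJ j hj
    rw [Real.dist_eq, sub_zero, abs_of_nonneg (D_nonneg _ _)] at h1 ⊢
    have hKm := hP.sub _ (hacc K).1
    have e1 := D_tri (μ := μ) (pw T (n j) E) (pw T (n j) (accumulate f K)) E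
    have e2 := D_tri (μ := μ) (pw T (n j) (accumulate f K)) (accumulate f K) E
    rw [pw_D T (n j) hEm hKm, D_comm E] at e1
    linarith

theorem transfer [IsProbabilityMeasure μ] (T : Au μ) (n : ℕ) {s t : Set α}
    (hs : MeasurableSet s) (ht : MeasurableSet t) (h : D μ s t = 0) :
    D μ (pw T n t) t ≤ D μ (pw T n s) s := by
  have e1 := D_tri (μ := μ) (pw T n t) (pw T n s) t
  have e2 := D_tri (μ := μ) (pw T n s) s t
  rw [pw_D T n ht hs, D_comm t s] at e1
  linarith

theorem nontrivial_fixed [IsProbabilityMeasure μ] (T : Au μ) {P : Set α → Prop} (hP : SA P)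
    (hinv : ∀ s, P s → ∃ t, P t ∧ D μ (pw T 1 s) t = 0) (N : ℕ) (hN : 1 ≤ N) (n : ℕ → ℕ)
    (hc : ∀ C, MeasurableSet C → ∀ e : ℝ, 0 < e →
        ∃ J, ∀ j, J ≤ j → D μ (pw T (n j) C) (pw T (n J) C) < e)
    (hz : ∀ C, MeasurableSet C → Tendsto (fun j => D μ (pw T (N * n j) C) C) atTop (𝓝 0))
    {C : Set α} (hC : P C) (h0 : 0 < μ.real C) (h1 : N * μ.real C < 1) :
    ∃ E, GP P T n E ∧ 0 < μ.real E ∧ μ.real E < 1 := by
  have hCm := hP.sub C hC
  set W : ℕ → Set α := fun j => ⋃ l ∈ Finset.range N, pw T (l * n j) C with hW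
  have hWm : ∀ j, MeasurableSet (W j) := fun j =>
    Finset.measurableSet_biUnion _ fun l _ => pw_meas T _ hCm
  have ht : ∀ j l, ∃ t, P t ∧ D μ (pw T (l * n j) C) t = 0 :=
    fun j l => inv_iter T hP hinv _ C hC
  choose t ht1 ht2 using ht
  set s : ℕ → Set α := fun j => ⋃ l ∈ Finset.range N, t j l with hs
  have hsP : ∀ j, P (s j) := fun j => hP.biU N _ (ht1 j)
  have hWs : ∀ j, D μ (W j) (s j) = 0 := by
    intro j
    refine le_antisymm ((D_biUnion N _ _).trans ?_) (D_nonneg _ _)
    simp [ht2]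
  have hWW : ∀ i j, D μ (W i) (W j) ≤ (N * N : ℝ) * D μ (pw T (n i) C) (pw T (n j) C) := by
    intro i j
    refine (D_biUnion N _ _).trans ?_
    calc ∑ l ∈ Finset.range N, D μ (pw T (l * n i) C) (pw T (l * n j) C)
        ≤ ∑ l ∈ Finset.range N, (N : ℝ) * D μ (pw T (n i) C) (pw T (n j) C) := by
          refine Finset.sum_le_sum fun l hl => ?_
          refine (pw_mul_D T _ _ l hCm).trans ?_
          have : (l : ℝ) ≤ N := by exact_mod_cast (Finset.mem_range.1 hl).le
          exact mul_le_mul_of_nonneg_right this (D_nonneg _ _)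
      _ = _ := by
          rw [Finset.sum_const, Finset.card_range, nsmul_eq_mul, mul_assoc]
  have hN0 : (0 : ℝ) < N := by exact_mod_cast hN
  obtain ⟨E, hE, hEl⟩ := complete hP s hsP (by
    intro e he
    obtain ⟨J, hJ⟩ := hc C hCm (e / (N * N)) (by positivity)
    refine ⟨J, fun j hj => ?_⟩
    have e1 := D_tri (μ := μ) (s j) (W j) (s J)
    have e2 := D_tri (μ := μ) (W j) (W J) (s J)
    rw [D_comm (s j) (W j), hWs] at e1
    rw [hWs J] at e2
    have e3 := hWW j J
    have e4 : (N * N : ℝ) * D μ (pw T (n j) C) (pw T (n J) C) < e := by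
      have := hJ j hj
      rw [lt_div_iff₀ (by positivity)] at this
      linarith
    linarith)
  have hEm := hP.sub E hE
  have hWE : Tendsto (fun j => D μ (W j) E) atTop (𝓝 0) := by
    refine squeeze_zero (fun j => D_nonneg _ _) (fun j => ?_) hEl
    have e1 := D_tri (μ := μ) (W j) (s j) E
    rw [hWs] at e1
    linarith
  have hrot : ∀ j, D μ (pw T (n j) (W j)) (W j) ≤ D μ (pw T (N * n j) C) C := by
    intro j
    have e1 : pw T (n j) (W j) = ⋃ l ∈ Finset.range N, pw T ((l + 1) * n j) C := by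
      simp only [hW]
      rw [pw_biU]
      simp only [pw_pw]
      simp only [add_mul, one_mul]
    rw [e1]
    unfold D
    refine measureReal_mono ?_ (measure_ne_top _ _)
    intro x hx
    simp only [hW, mem_symmDiff, mem_iUnion, Finset.mem_range, exists_prop, not_exists,
      not_and] at hx ⊢
    rcases hx with ⟨⟨l, hl, hx⟩, h2⟩ | ⟨⟨l, hl, hx⟩, h2⟩
    · left
      have hlN : l + 1 = N := by
        by_contra hne
        exact h2 (l + 1) (by omega) hx
      rw [hlN] at hx
      refine ⟨hx, ?_⟩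
      have := h2 0 (by omega)
      rwa [zero_mul, pw_zero] at this
    · right
      have hl0 : l = 0 := by
        by_contra hne
        obtain ⟨l', rfl⟩ := Nat.exists_eq_succ_of_ne_zero hne
        exact h2 l' (by omega) hx
      rw [hl0, zero_mul, pw_zero] at hx
      refine ⟨hx, ?_⟩
      have := h2 (N - 1) (by omega)
      rwa [show N - 1 + 1 = N by omega] at this
  refine ⟨E, ⟨hE, ?_⟩, ?_, ?_⟩
  · have hlim : Tendsto (fun j => 2 * D μ (W j) E + D μ (pw T (N * n j) C) C) atTop (𝓝 0) := by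
      simpa using (hWE.const_mul 2).add (hz C hCm)
    refine squeeze_zero (fun j => D_nonneg _ _) (fun j => ?_) hlim
    have e1 := D_tri (μ := μ) (pw T (n j) E) (pw T (n j) (W j)) E
    have e2 := D_tri (μ := μ) (pw T (n j) (W j)) (W j) E
    have e3 := hrot j
    rw [pw_D T _ hEm (hWm j), D_comm E] at e1
    linarith
  · have h2 : ∀ j, μ.real C ≤ μ.real E + D μ (W j) E := by
      intro j
      have e1 : μ.real C ≤ μ.real (W j) := by
        refine measureReal_mono ?_ (measure_ne_top _ _)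
        intro x hx
        simp only [hW, mem_iUnion]
        refine ⟨0, Finset.mem_range.2 (by omega), ?_⟩
        rw [zero_mul, pw_zero]
        exact hx
      have e2 := (abs_le.1 (abs_meas_sub_le (μ := μ) (hWm j) hEm)).2
      linarith
    have h3 : μ.real C ≤ μ.real E := by
      have h4 : Tendsto (fun j => μ.real E + D μ (W j) E) atTop (𝓝 (μ.real E + 0)) :=
        tendsto_const_nhds.add hWE
      rw [add_zero] at h4
      exact ge_of_tendsto' h4 h2
    linarith
  · have h2 : ∀ j, μ.real E ≤ N * μ.real C + D μ (W j) E := by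
      intro j
      have e1 : μ.real (W j) ≤ N * μ.real C := by
        calc μ.real (W j) ≤ ∑ l ∈ Finset.range N, μ.real (pw T (l * n j) C) :=
              measureReal_biUnion_finset_le _ _
          _ = ∑ l ∈ Finset.range N, μ.real C := by
              refine Finset.sum_congr rfl fun l _ => ?_
              rw [measureReal_def, measureReal_def]
              congr 1
              exact (T.mp.iterate _).measure_preimage hCm.nullMeasurableSet
          _ = N * μ.real C := by
              rw [Finset.sum_const, Finset.card_range, nsmul_eq_mul]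
      have e2 := (abs_le.1 (abs_meas_sub_le (μ := μ) (hWm j) hEm)).1
      linarith
    have h3 : μ.real E ≤ N * μ.real C := by
      have h4 : Tendsto (fun j => N * μ.real C + D μ (W j) E) atTop (𝓝 (N * μ.real C + 0)) :=
        tendsto_const_nhds.add hWE
      rw [add_zero] at h4
      exact ge_of_tendsto' h4 h2
    linarith

/-- The deterministic part: the generic properties give a proper nontrivial invariant class. -/
theorem det_main [IsProbabilityMeasure μ] (T : Au μ) {B : ℕ → Set α}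
    (hB : ∀ i, MeasurableSet (B i))
    (hd : ∀ A, MeasurableSet A → ∀ e : ℝ, 0 < e → ∃ i, D μ A (B i) < e)
    (h1 : P1 B T) (h2 : P2 B T) (h3 : P3 B T) {P : Set α → Prop} (hP : SA P)
    (hinv : ∀ s, P s → ∃ t, P t ∧ D μ (pw T 1 s) t = 0)
    {A : Set α} (hA : P A) (hA0 : 0 < μ.real A) (hA1 : μ.real A < 1) :
    ∃ n : ℕ → ℕ, (∃ E, GP P T n E ∧ 0 < μ.real E ∧ μ.real E < 1) ∧
      ∀ t, GP P T n t → D μ A t ≠ 0 := by
  have hAm := hP.sub A hA
  have hmov := moved T hB hd h3 hAm hA0 hA1
  obtain ⟨N, hN, n, hc, hz, c, hc0, hcn⟩ := exists_seq T hB hd h1 h2 hAm hmov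
  have hN0 : (0 : ℝ) < N := by exact_mod_cast hN
  obtain ⟨C, hC, hC0, hC1⟩ := small T hB hd h3 hP hinv hA hA0 hA1
    (show (0 : ℝ) < 1 / N by positivity)
  refine ⟨n, nontrivial_fixed T hP hinv N hN n hc hz hC hC0 ?_, ?_⟩
  · rw [lt_div_iff₀ hN0] at hC1
    linarith
  · intro t ht h0
    have htm := hP.sub t ht.1
    have e1 : ∀ j, c ≤ D μ (pw T (n j) t) t := fun j =>
      (hcn j).trans (transfer T (n j) htm hAm (by rw [D_comm]; exact h0))
    have := ge_of_tendsto' ht.2 e1
    linarith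

theorem exists_dense [StandardBorelSpace α] [IsProbabilityMeasure μ] :
    ∃ B : ℕ → Set α, (∀ i, MeasurableSet (B i)) ∧
      ∀ A, MeasurableSet A → ∀ e : ℝ, 0 < e → ∃ i, D μ A (B i) < e := by
  obtain ⟨S, hS, hd⟩ := (inferInstance : MeasureTheory.IsSeparable μ).exists_countable_measureDense
  have hne : S.Nonempty := hd.nonempty
  obtain ⟨B, hB⟩ := hS.exists_eq_range hne
  refine ⟨B, fun i => hd.measurable _ (by rw [hB]; exact mem_range_self i), ?_⟩
  intro A hA e he
  obtain ⟨t, ht, h⟩ := hd.approx A hA (measure_ne_top _ _) e he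
  rw [hB] at ht
  obtain ⟨i, rfl⟩ := ht
  exact ⟨i, D_lt_of he h⟩

theorem final_pred [IsProbabilityMeasure μ] (T : Au μ) {B : ℕ → Set α}
    (hB : ∀ i, MeasurableSet (B i))
    (hd : ∀ A, MeasurableSet A → ∀ e : ℝ, 0 < e → ∃ i, D μ A (B i) < e)
    (h1 : P1 B T) (h2 : P2 B T) (h3 : P3 B T) {P : Set α → Prop} (hP : SA P)
    (hinv : ∀ s, P s →
      (∃ t, P t ∧ μ (symmDiff (Set.preimage T.1.toFun s) t) = 0) ∧
      (∃ t, P t ∧ μ (symmDiff (Set.preimage T.1.invFun s) t) = 0))
    (hA : ∃ s, P s ∧ 0 < μ s ∧ μ s < 1) :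
    ∃ G : Set α → Prop, SA G ∧ (∀ s, G s → P s) ∧
      (∀ s, G s →
        (∃ t, G t ∧ μ (symmDiff (Set.preimage T.1.toFun s) t) = 0) ∧
        (∃ t, G t ∧ μ (symmDiff (Set.preimage T.1.invFun s) t) = 0)) ∧
      (∃ s, G s ∧ 0 < μ s ∧ μ s < 1) ∧
      ∃ s, P s ∧ ∀ t, G t → μ (symmDiff s t) ≠ 0 := by
  obtain ⟨A, hA, hA0, hA1⟩ := hA
  have hinv1 : ∀ s, P s → ∃ t, P t ∧ D μ (pw T 1 s) t = 0 := by
    intro s hs
    obtain ⟨t, ht, h0⟩ := (hinv s hs).1
    exact ⟨t, ht, D_zero_iff.2 h0⟩
  have hA0' : 0 < μ.real A := ENNReal.toReal_pos hA0.ne' (measure_ne_top _ _)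
  have hA1' : μ.real A < 1 := by
    have := (ENNReal.toReal_lt_toReal (measure_ne_top μ A) ENNReal.one_ne_top).2 hA1
    rwa [ENNReal.toReal_one] at this
  obtain ⟨n, ⟨E, hE, hE0, hE1⟩, hprop⟩ := det_main T hB hd h1 h2 h3 hP hinv1 hA hA0' hA1'
  refine ⟨GP P T n, GP_SA hP T n, fun s hs => hs.1, ?_, ?_, ?_⟩
  · intro s hs
    have hsm := hP.sub s hs.1
    constructor
    · obtain ⟨t, ht, h0⟩ := (hinv s hs.1).1
      have h0' : D μ (pw T 1 s) t = 0 := D_zero_iff.2 h0
      refine ⟨t, ⟨ht, ?_⟩, h0⟩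
      refine squeeze_zero (fun j => D_nonneg _ _) (fun j => ?_) hs.2
      refine (transfer T (n j) (pw_meas T 1 hsm) (hP.sub t ht) h0').trans ?_
      rw [pw_pw, add_comm, ← pw_pw, pw_D T 1 (pw_meas T _ hsm) hsm]
    · obtain ⟨t, ht, h0⟩ := (hinv s hs.1).2
      have h0' := D_zero_iff.2 h0
      refine ⟨t, ⟨ht, ?_⟩, h0⟩
      have hs' : MeasurableSet (Set.preimage T.1.invFun s) := T.1.symm.measurable hsm
      have hback : pw T 1 (Set.preimage T.1.invFun s) = s := by
        ext x
        show T.1.invFun (T.1.toFun x) ∈ s ↔ x ∈ s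
        rw [T.1.left_inv]
      refine squeeze_zero (fun j => D_nonneg _ _) (fun j => ?_) hs.2
      refine (transfer T (n j) hs' (hP.sub t ht) h0').trans ?_
      rw [← pw_D T 1 (pw_meas T _ hs') hs', pw_pw, add_comm, ← pw_pw, hback]
  · refine ⟨E, hE, ?_, ?_⟩
    · by_contra hcon
      have : μ E = 0 := le_antisymm (not_lt.1 hcon) zero_le
      rw [measureReal_def, this] at hE0
      simp at hE0
    · by_contra hcon
      have h5 : μ E = 1 := le_antisymm prob_le_one (not_lt.1 hcon)
      rw [measureReal_def, h5] at hE1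
      simp at hE1
  · exact ⟨A, hA, fun t ht h0 => hprop t ht (D_zero_iff.2 h0)⟩

end Pool.Agent.H98R3.PF
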