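import Pool.Agent.H98R3.PF.Approx

open MeasureTheory Set Filter ProbabilityTheory
open scoped Topology ENNReal symmDiff

namespace Pool.Agent.H98R3.PF

variable {α : Type*} [mα : MeasurableSpace α]

noncomputable def D (μ : Measure α) (A B : Set α) : ℝ := μ.real (A ∆ B)

section Dlem

variable {μ : Measure α} [IsFiniteMeasure μ]

theorem D_nonneg (A B : Set α) : 0 ≤ D μ A B := measureReal_nonneg

theorem D_comm (A B : Set α) : D μ A B = D μ B A := by
  unfold D
  rw [symmDiff_comm]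

theorem D_self (A : Set α) : D μ A A = 0 := by
  unfold D
  simp

theorem D_tri (A B C : Set α) : D μ A C ≤ D μ A B + D μ B C := by
  unfold D
  refine (measureReal_mono ?_ (measure_ne_top _ _)).trans (measureReal_union_le _ _)
  exact symmDiff_triangle A B C

theorem D_pre {f : α → α} (hf : MeasurePreserving f μ μ) {A B : Set α} (hA : MeasurableSet A)
    (hB : MeasurableSet B) : D μ (f ⁻¹' A) (f ⁻¹' B) = D μ A B := by
  unfold D
  rw [← preimage_symmDiff, measureReal_def, measureReal_def,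
    hf.measure_preimage (hA.symmDiff hB).nullMeasurableSet]

theorem D_lt_of {A B : Set α} {e : ℝ} (he : 0 < e) (h : μ (A ∆ B) < ENNReal.ofReal e) :
    D μ A B < e := by
  unfold D
  rw [measureReal_def]
  exact (ENNReal.lt_ofReal_iff_toReal_lt (measure_ne_top _ _)).1 h

theorem abs_meas_sub_le {A B : Set α} (hA : MeasurableSet A) (hB : MeasurableSet B) :
    |μ.real A - μ.real B| ≤ D μ A B := by
  have h1 : ∀ A B : Set α, μ.real A ≤ μ.real B + D μ A B := by
    intro A B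
    unfold D
    refine (measureReal_mono ?_ (measure_ne_top _ _)).trans (measureReal_union_le _ _)
    intro x hx
    by_cases h : x ∈ B
    · exact Or.inl h
    · exact Or.inr (Or.inl ⟨hx, h⟩)
  have h2 := h1 A B
  have h3 := h1 B A
  rw [D_comm] at h3
  rw [abs_le]
  constructor <;> linarith

end Dlem

def Au (μ : Measure α) : Type _ := {e : α ≃ᵐ α // MeasurePreserving e.toFun μ μ}

instance wtop (μ : Measure α) : TopologicalSpace (Au μ) :=
  (⨅ (A : Set α) (B : Set α) (_ : MeasurableSet A) (_ : MeasurableSet B),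
            TopologicalSpace.induced
              (fun T : {e : α ≃ᵐ α // MeasurePreserving e.toFun μ μ} =>
                μ (symmDiff (Set.preimage T.1.toFun A) B))
              inferInstance)

variable {μ : Measure α}

def Au.f (T : Au μ) : α → α := T.1.toFun

theorem Au.mp (T : Au μ) : MeasurePreserving T.f μ μ := T.2

def pw (T : Au μ) (n : ℕ) (A : Set α) : Set α := T.f^[n] ⁻¹' A

theorem pw_meas (T : Au μ) (n : ℕ) {A : Set α} (hA : MeasurableSet A) : MeasurableSet (pw T n A) :=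
  (T.mp.iterate n).measurable hA

theorem pw_zero (T : Au μ) (A : Set α) : pw T 0 A = A := rfl

theorem pw_one (T : Au μ) (A : Set α) : pw T 1 A = T.f ⁻¹' A := rfl

theorem pw_pw (T : Au μ) (m n : ℕ) (A : Set α) : pw T m (pw T n A) = pw T (n + m) A := by
  unfold pw
  rw [Function.iterate_add]
  rfl

theorem pw_D [IsFiniteMeasure μ] (T : Au μ) (n : ℕ) {A B : Set α} (hA : MeasurableSet A)
    (hB : MeasurableSet B) : D μ (pw T n A) (pw T n B) = D μ A B :=
  D_pre (T.mp.iterate n) hA hB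

theorem cont_one {A B : Set α} (hA : MeasurableSet A) (hB : MeasurableSet B) :
    Continuous (fun T : Au μ => μ ((T.f ⁻¹' A) ∆ B)) := by
  rw [continuous_iff_le_induced]
  refine iInf_le_of_le A (iInf_le_of_le B (iInf_le_of_le hA (iInf_le_of_le hB ?_)))
  exact le_rfl

theorem basis_nhds [IsFiniteMeasure μ] {U : Set (Au μ)} {T0 : Au μ} (hU : U ∈ 𝓝 T0) :
    ∃ F : Finset (Set α), (∀ A ∈ F, MeasurableSet A) ∧ ∃ ε : ℝ≥0∞, 0 < ε ∧
      ∀ T : Au μ, (∀ A ∈ F, μ ((T.f ⁻¹' A) ∆ (T0.f ⁻¹' A)) < ε) → T ∈ U := by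
  classical
  obtain ⟨V, hVU, hV, hTV⟩ := mem_nhds_iff.1 hU
  let t' : TopologicalSpace (Au μ) :=
    { IsOpen := fun U => ∀ T0 ∈ U, ∃ F : Finset (Set α), (∀ A ∈ F, MeasurableSet A) ∧
        ∃ ε : ℝ≥0∞, 0 < ε ∧
          ∀ T : Au μ, (∀ A ∈ F, μ ((T.f ⁻¹' A) ∆ (T0.f ⁻¹' A)) < ε) → T ∈ U
      isOpen_univ := fun T0 _ => ⟨∅, by simp, 1, by simp, fun _ _ => mem_univ _⟩
      isOpen_inter := by
        intro U V hU hV T0 hT
        obtain ⟨F1, h1, e1, he1, h1'⟩ := hU T0 hT.1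
        obtain ⟨F2, h2, e2, he2, h2'⟩ := hV T0 hT.2
        refine ⟨F1 ∪ F2, ?_, min e1 e2, lt_min he1 he2, ?_⟩
        · intro A hA
          rcases Finset.mem_union.1 hA with h | h
          · exact h1 A h
          · exact h2 A h
        · intro T hT
          refine ⟨h1' T fun A hA => ?_, h2' T fun A hA => ?_⟩
          · exact (hT A (Finset.mem_union_left _ hA)).trans_le (min_le_left _ _)
          · exact (hT A (Finset.mem_union_right _ hA)).trans_le (min_le_right _ _)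
      isOpen_sUnion := by
        intro S hS T0 hT
        obtain ⟨U, hU, hTU⟩ := hT
        obtain ⟨F1, h1, e1, he1, h1'⟩ := hS U hU T0 hTU
        exact ⟨F1, h1, e1, he1, fun T hT => ⟨U, hU, h1' T hT⟩⟩ }
  have hle : t' ≤ wtop μ := by
    refine le_iInf fun A => le_iInf fun B => le_iInf fun hA => le_iInf fun hB => ?_
    rw [← continuous_iff_le_induced]
    refine ⟨fun V hV => ?_⟩
    intro T0 hT0
    have hV' : V ∈ 𝓝 (μ ((T0.f ⁻¹' A) ∆ B)) := hV.mem_nhds hT0
    obtain ⟨e, he, heV⟩ := (ENNReal.hasBasis_nhds_of_ne_top (measure_ne_top μ _)).mem_iff.1 hV'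
    refine ⟨{A}, by simpa using hA, e, he, fun T hT => heV ?_⟩
    have h1 := hT A (Finset.mem_singleton_self A)
    constructor
    · rw [tsub_le_iff_right]
      calc μ ((T0.f ⁻¹' A) ∆ B) ≤ μ ((T0.f ⁻¹' A) ∆ (T.f ⁻¹' A)) + μ ((T.f ⁻¹' A) ∆ B) :=
            measure_symmDiff_le _ _ _
        _ ≤ e + μ ((T.f ⁻¹' A) ∆ B) := by
            gcongr
            rw [symmDiff_comm]
            exact h1.le
        _ = _ := add_comm _ _
    · calc μ ((T.f ⁻¹' A) ∆ B) ≤ μ ((T.f ⁻¹' A) ∆ (T0.f ⁻¹' A)) + μ ((T0.f ⁻¹' A) ∆ B) :=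
            measure_symmDiff_le _ _ _
        _ ≤ e + μ ((T0.f ⁻¹' A) ∆ B) := by
            gcongr
        _ = _ := add_comm _ _
  obtain ⟨F, h1, e, he, h2⟩ := (hle V hV) T0 hTV
  exact ⟨F, h1, e, he, fun T hT => hVU (h2 T hT)⟩

theorem near [IsFiniteMeasure μ] (T0 : Au μ) {A : Set α} (hA : MeasurableSet A) (n : ℕ)
    {e : ℝ} (he : 0 < e) : ∀ᶠ T : Au μ in 𝓝 T0, D μ (pw T n A) (pw T0 n A) < e := by
  induction n generalizing e with
  | zero => 
    refine Eventually.of_forall fun T => ?_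
    rw [pw_zero, pw_zero, D_self]
    exact he
  | succ n ih =>
    have h1 := ih (half_pos he)
    have hC : MeasurableSet (pw T0 n A) := pw_meas T0 n hA
    have h2 : ∀ᶠ T : Au μ in 𝓝 T0,
        μ ((T.f ⁻¹' (pw T0 n A)) ∆ (T0.f ⁻¹' (pw T0 n A))) < ENNReal.ofReal (e / 2) := by
      have h3 := (cont_one (μ := μ) hC (T0.mp.measurable hC)).continuousAt (x := T0)
      have h4 : μ ((T0.f ⁻¹' (pw T0 n A)) ∆ (T0.f ⁻¹' (pw T0 n A))) < ENNReal.ofReal (e / 2) := by
        simp only [symmDiff_self]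
        rw [show (⊥ : Set α) = ∅ from rfl, measure_empty]
        exact ENNReal.ofReal_pos.2 (half_pos he)
      exact h3.eventually_lt_const h4
    filter_upwards [h1, h2] with T h5 h6
    have h7 := D_lt_of (half_pos he) h6
    have e1 : pw T (n + 1) A = T.f ⁻¹' (pw T n A) := by
      rw [← pw_one T, pw_pw]
    have e2 : pw T0 (n + 1) A = T0.f ⁻¹' (pw T0 n A) := by
      rw [← pw_one T0, pw_pw]
    rw [e1, e2]
    calc D μ (T.f ⁻¹' (pw T n A)) (T0.f ⁻¹' (pw T0 n A))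
        ≤ D μ (T.f ⁻¹' (pw T n A)) (T.f ⁻¹' (pw T0 n A))
          + D μ (T.f ⁻¹' (pw T0 n A)) (T0.f ⁻¹' (pw T0 n A)) := D_tri _ _ _
      _ = D μ (pw T n A) (pw T0 n A)
          + D μ (T.f ⁻¹' (pw T0 n A)) (T0.f ⁻¹' (pw T0 n A)) := by
          rw [D_pre T.mp (pw_meas T n hA) hC]
      _ < e / 2 + e / 2 := add_lt_add h5 h7
      _ = e := add_halves e

theorem D_cont [IsFiniteMeasure μ] {A B : Set α} (hA : MeasurableSet A) (hB : MeasurableSet B)
    (m n : ℕ) : Continuous (fun T : Au μ => D μ (pw T m A) (pw T n B)) := by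
  rw [continuous_iff_continuousAt]
  intro T0
  rw [ContinuousAt, Metric.tendsto_nhds]
  intro e he
  filter_upwards [near T0 hA m (half_pos he), near T0 hB n (half_pos he)] with T h1 h2
  rw [Real.dist_eq, abs_lt]
  have h3 := D_tri (μ := μ) (pw T m A) (pw T0 m A) (pw T n B)
  have h4 := D_tri (μ := μ) (pw T0 m A) (pw T0 n B) (pw T n B)
  have h5 := D_tri (μ := μ) (pw T0 m A) (pw T m A) (pw T0 n B)
  have h6 := D_tri (μ := μ) (pw T m A) (pw T n B) (pw T0 n B)
  rw [D_comm (pw T0 n B) (pw T n B)] at h4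
  rw [D_comm (pw T0 m A) (pw T m A)] at h5
  constructor <;> linarith

theorem near_torsion [StandardBorelSpace α] [IsProbabilityMeasure μ] [NullSingletonClass μ]
    (T0 : Au μ) {V : Set (Au μ)} (hV : V ∈ 𝓝 T0) (N : ℕ) (hN : 1 ≤ N) (n : ℕ)
    (F : Finset (Set α)) (hF : ∀ A ∈ F, MeasurableSet A) :
    ∃ T ∈ V, ∃ H : ℕ, 1 ≤ H ∧
      (∀ A ∈ F, D μ (pw T H A) (pw T0 n A) ≤ D μ (pw T0 (N * n) A) A) ∧
      ∀ A, pw T (N * H) A = A := by
  classical
  obtain ⟨F1, hF1, e, he, hT⟩ := basis_nhds hV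
  obtain ⟨H, hH⟩ := ENNReal.exists_inv_nat_lt he.ne'
  have hH1 : 1 ≤ H + 1 := by omega
  obtain ⟨S, h1, h2, h3, h4⟩ := torsion_approx μ T0.1 T0.2 N (H + 1) n hN hH1 (F ∪ F1) (by
    intro A hA
    rcases Finset.mem_union.1 hA with h | h
    · exact hF A h
    · exact hF1 A h)
  have hlt : ((H + 1 : ℕ) : ℝ≥0∞)⁻¹ < e := by
    refine lt_of_le_of_lt ?_ hH
    gcongr
    simp
  refine ⟨⟨S, h1⟩, hT _ fun A hA => ?_, H + 1, hH1, ?_, ?_⟩
  · exact (h2 A (Finset.mem_union_right _ hA)).trans_lt hlt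
  · intro A hA
    exact ENNReal.toReal_mono (measure_ne_top _ _) (h3 A (Finset.mem_union_left _ hA))
  · intro A
    show (S^[N * (H + 1)]) ⁻¹' A = A
    rw [h4, preimage_id]

theorem near_mixing [StandardBorelSpace α] [IsProbabilityMeasure μ] [NullSingletonClass μ]
    (T0 : Au μ) {V : Set (Au μ)} (hV : V ∈ 𝓝 T0) {A : Set α} (hA : MeasurableSet A) :
    ∃ T ∈ V, ∃ H : ℕ, D μ (pw T H A) A = 2 * μ.real A * (1 - μ.real A) := by
  classical
  obtain ⟨F1, hF1, e, he, hT⟩ := basis_nhds hV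
  obtain ⟨H, hH⟩ := ENNReal.exists_inv_nat_lt he.ne'
  have hH1 : 1 ≤ H + 1 := by omega
  obtain ⟨S, h1, h2, h3⟩ := mixing_approx μ T0.1 T0.2 (H + 1) hH1 ({A} ∪ F1) (by
    intro B hB
    rcases Finset.mem_union.1 hB with h | h
    · rw [Finset.mem_singleton.1 h]; exact hA
    · exact hF1 B h)
  have hlt : ((H + 1 : ℕ) : ℝ≥0∞)⁻¹ < e := by
    refine lt_of_le_of_lt ?_ hH
    gcongr
    simp
  refine ⟨⟨S, h1⟩, hT _ fun A hA => ?_, H + 1, ?_⟩
  · exact (h2 A (Finset.mem_union_right _ hA)).trans_lt hlt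
  · have h5 := h3 A (by simp)
    show (μ ((S^[H + 1] ⁻¹' A) ∆ A)).toReal = _
    rw [h5, ENNReal.toReal_add (ENNReal.mul_ne_top (measure_ne_top _ _) (measure_ne_top _ _))
      (ENNReal.mul_ne_top (measure_ne_top _ _) (measure_ne_top _ _)), ENNReal.toReal_mul,
      ENNReal.toReal_mul]
    have h6 : (μ Aᶜ).toReal = 1 - μ.real A := probReal_compl_eq_one_sub hA
    rw [h6]
    unfold Measure.real
    ring

/-- The three generic properties. -/
def P1 (B : ℕ → Set α) (T : Au μ) : Prop :=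
  ∀ m : ℕ, ∃ N : ℕ, 1 ≤ N ∧ ∀ i < m, D μ (pw T N (B i)) (B i) < (1 / 2) ^ m

def P2 (B : ℕ → Set α) (T : Au μ) : Prop :=
  ∀ N : ℕ, 1 ≤ N → ∀ n m : ℕ, (∀ i < m, D μ (pw T (N * n) (B i)) (B i) < (1 / 2) ^ m) →
    ∃ n' : ℕ, (∀ i < m, D μ (pw T n' (B i)) (pw T n (B i)) < (1 / 2) ^ m) ∧
      ∀ i < m + 1, D μ (pw T (N * n') (B i)) (B i) < (1 / 2) ^ (m + 1)

def P3 (B : ℕ → Set α) (T : Au μ) : Prop :=
  ∀ i m : ℕ, ∃ n : ℕ, |D μ (pw T n (B i)) (B i) - 2 * μ.real (B i) * (1 - μ.real (B i))|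
    < (1 / 2) ^ m

theorem open_lt [IsFiniteMeasure μ] {A B : Set α} (hA : MeasurableSet A) (hB : MeasurableSet B)
    (m n : ℕ) (e : ℝ) : IsOpen {T : Au μ | D μ (pw T m A) (pw T n B) < e} :=
  isOpen_lt (D_cont hA hB m n) continuous_const

theorem gen1 [StandardBorelSpace α] [IsProbabilityMeasure μ] [NullSingletonClass μ]
    {B : ℕ → Set α} (hB : ∀ i, MeasurableSet (B i)) : ∀ᶠ T : Au μ in residual (Au μ), P1 B T := by
  classical
  refine eventually_countable_forall.2 fun m => ?_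
  refine residual_of_dense_open ?_ ?_
  · have : {T : Au μ | ∃ N : ℕ, 1 ≤ N ∧ ∀ i < m, D μ (pw T N (B i)) (B i) < (1 / 2) ^ m} =
        ⋃ (N : ℕ) (_ : 1 ≤ N), ⋂ i ∈ Finset.range m,
          {T : Au μ | D μ (pw T N (B i)) (pw T 0 (B i)) < (1 / 2) ^ m} := by
      ext T
      simp [pw_zero]
    rw [this]
    refine isOpen_iUnion fun N => isOpen_iUnion fun _ => isOpen_biInter_finset fun i _ => ?_
    exact open_lt (hB i) (hB i) _ _ _
  · rw [dense_iff_inter_open]
    rintro U hU ⟨T0, hT0⟩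
    obtain ⟨T, hTU, H, hH, -, h2⟩ := near_torsion T0 (hU.mem_nhds hT0) 1 le_rfl 0 ∅ (by simp)
    refine ⟨T, hTU, 1 * H, by omega, fun i _ => ?_⟩
    rw [h2, D_self]
    positivity

theorem gen2 [StandardBorelSpace α] [IsProbabilityMeasure μ] [NullSingletonClass μ]
    {B : ℕ → Set α} (hB : ∀ i, MeasurableSet (B i)) : ∀ᶠ T : Au μ in residual (Au μ), P2 B T := by
  classical
  refine eventually_countable_forall.2 fun N => ?_
  by_cases hN : 1 ≤ N
  swap
  · exact Eventually.of_forall fun T h => absurd h hN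
  suffices h : ∀ᶠ T : Au μ in residual (Au μ), ∀ n m : ℕ,
      (∀ i < m, D μ (pw T (N * n) (B i)) (B i) < (1 / 2) ^ m) →
      ∃ n' : ℕ, (∀ i < m, D μ (pw T n' (B i)) (pw T n (B i)) < (1 / 2) ^ m) ∧
        ∀ i < m + 1, D μ (pw T (N * n') (B i)) (B i) < (1 / 2) ^ (m + 1) by
    filter_upwards [h] with T hT _ using hT
  refine eventually_countable_forall.2 fun n => eventually_countable_forall.2 fun m => ?_
  set U : Set (Au μ) := {T | ∃ n' : ℕ,
      (∀ i < m, D μ (pw T n' (B i)) (pw T n (B i)) < (1 / 2) ^ m) ∧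
        ∀ i < m + 1, D μ (pw T (N * n') (B i)) (B i) < (1 / 2) ^ (m + 1)} with hU
  have hUo : IsOpen U := by
    have : U = ⋃ (n' : ℕ), (⋂ i ∈ Finset.range m,
          {T : Au μ | D μ (pw T n' (B i)) (pw T n (B i)) < (1 / 2) ^ m}) ∩
          ⋂ i ∈ Finset.range (m + 1),
          {T : Au μ | D μ (pw T (N * n') (B i)) (pw T 0 (B i)) < (1 / 2) ^ (m + 1)} := by
      ext T
      simp [hU, pw_zero]
    rw [this]
    refine isOpen_iUnion fun N => IsOpen.inter ?_ ?_
    · exact isOpen_biInter_finset fun i _ => open_lt (hB i) (hB i) _ _ _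
    · exact isOpen_biInter_finset fun i _ => open_lt (hB i) (hB i) _ _ _
  have hd : U ∪ (closure U)ᶜ ∈ residual (Au μ) := by
    refine residual_of_dense_open (hUo.union isClosed_closure.isOpen_compl) ?_
    rw [dense_iff_inter_open]
    rintro W hW ⟨T0, hT0⟩
    by_cases h : T0 ∈ closure U
    · obtain ⟨T, h1, h2⟩ := mem_closure_iff.1 h W hW hT0
      exact ⟨T, h1, Or.inl h2⟩
    · exact ⟨T0, hT0, Or.inr h⟩
  filter_upwards [hd] with T hT hO
  rcases hT with hT | hT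
  · exact hT
  · exfalso
    apply hT
    rw [mem_closure_iff_nhds]
    intro W hW
    have h1 : ∀ᶠ S : Au μ in 𝓝 T, ∀ i ∈ Finset.range m,
        D μ (pw S n (B i)) (pw T n (B i)) < (1 / 2) ^ m - D μ (pw T (N * n) (B i)) (B i) := by
      rw [Filter.eventually_all_finset]
      intro i hi
      exact near T (hB i) n (sub_pos.2 (hO i (Finset.mem_range.1 hi)))
    obtain ⟨S, hSW, H, hH, h2, h3⟩ := near_torsion T (inter_mem hW h1) N hN n
      ((Finset.range m).image B) (by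
        intro A hA
        obtain ⟨i, -, rfl⟩ := Finset.mem_image.1 hA
        exact hB i)
    refine ⟨S, hSW.1, H, ?_, ?_⟩
    · intro i hi
      have h4 := h2 (B i) (Finset.mem_image_of_mem B (Finset.mem_range.2 hi))
      have h5 : D μ (pw S n (B i)) (pw T n (B i)) <
        (1 / 2) ^ m - D μ (pw T (N * n) (B i)) (B i) := hSW.2 i (Finset.mem_range.2 hi)
      have h6 := D_tri (μ := μ) (pw S H (B i)) (pw T n (B i)) (pw S n (B i))
      rw [D_comm (pw T n (B i)) (pw S n (B i))] at h6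
      linarith
    · intro i _
      rw [h3, D_self]
      positivity

theorem gen3 [StandardBorelSpace α] [IsProbabilityMeasure μ] [NullSingletonClass μ]
    {B : ℕ → Set α} (hB : ∀ i, MeasurableSet (B i)) : ∀ᶠ T : Au μ in residual (Au μ), P3 B T := by
  classical
  refine eventually_countable_forall.2 fun i => eventually_countable_forall.2 fun m => ?_
  refine residual_of_dense_open ?_ ?_
  · have : {T : Au μ | ∃ n : ℕ, |D μ (pw T n (B i)) (B i) -
        2 * μ.real (B i) * (1 - μ.real (B i))| < (1 / 2) ^ m} =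
        ⋃ (n : ℕ), {T : Au μ | |D μ (pw T n (B i)) (pw T 0 (B i)) -
        2 * μ.real (B i) * (1 - μ.real (B i))| < (1 / 2) ^ m} := by
      ext T
      simp [pw_zero]
    rw [this]
    refine isOpen_iUnion fun n => ?_
    exact isOpen_lt ((D_cont (hB i) (hB i) n 0).sub continuous_const).abs continuous_const
  · rw [dense_iff_inter_open]
    rintro U hU ⟨T0, hT0⟩
    obtain ⟨T, hTU, H, hH⟩ := near_mixing T0 (hU.mem_nhds hT0) (hB i)
    refine ⟨T, hTU, H, ?_⟩
    rw [hH, sub_self, abs_zero]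
    positivity

end Pool.Agent.H98R3.PF
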