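import Mathlib
import Pool.Agent.Helper212.Iso

open MeasureTheory Set Filter ProbabilityTheory
open scoped Topology ENNReal symmDiff

namespace Pool.Agent.H98R3.PF

open Pool.Agent.Helper212.Sq

variable {X Y J : Type*} [MeasurableSpace X] [MeasurableSpace Y] [MeasurableSpace J]

theorem exists_mp_equiv2 [StandardBorelSpace X] [StandardBorelSpace Y]
    (μ : Measure X) (ν : Measure Y) [IsProbabilityMeasure μ] [NullSingletonClass μ]
    [IsProbabilityMeasure ν] [NullSingletonClass ν] :
    ∃ e : X ≃ᵐ Y, MeasurePreserving e μ ν := by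
  obtain ⟨e1, h1⟩ := exists_mp_equiv μ
  obtain ⟨e2, h2⟩ := exists_mp_equiv ν
  exact ⟨e1.trans e2.symm, (h2.symm e2).comp h1⟩

theorem exists_null [StandardBorelSpace X]
    (μ : Measure X) [IsProbabilityMeasure μ] [NullSingletonClass μ] :
    ∃ M : Set X, MeasurableSet M ∧ μ M = 0 ∧ ¬ M.Countable := by
  obtain ⟨e, he⟩ := exists_mp_equiv μ
  obtain ⟨N, hN, hN0, hNc⟩ := exists_uncountable_null_unitInterval
  refine ⟨e ⁻¹' N, e.measurable hN, by rw [he.measure_preimage hN.nullMeasurableSet]; exact hN0, ?_⟩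
  intro h
  apply hNc
  have := h.image e
  rwa [image_preimage_eq _ e.surjective] at this

theorem measure_fiber_sum [Countable J] [MeasurableSingletonClass J] (μ : Measure X)
    {c : X → J} (hc : Measurable c) {s : Set X} (hs : MeasurableSet s) :
    μ s = ∑' j, μ (c ⁻¹' {j} ∩ s) := by
  rw [← measure_iUnion]
  · congr 1
    ext x
    simp
  · intro i j hij
    refine Set.disjoint_left.2 ?_
    rintro x ⟨h1, -⟩ ⟨h2, -⟩
    exact hij (h1.symm.trans h2)
  · intro j
    exact (hc (measurableSet_singleton j)).inter hs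

theorem glue [Countable J] [MeasurableSingletonClass J] (μ : Measure X) (ν : Measure Y)
    {c : X → J} {d : Y → J} (hc : Measurable c) (hd : Measurable d) (g : J → X ≃ᵐ Y)
    (key : ∀ j, ∀ E, MeasurableSet E → μ (c ⁻¹' {j} ∩ g j ⁻¹' E) = ν (d ⁻¹' {j} ∩ E)) :
    MeasurePreserving (fun x => g (c x) x) μ ν ∧ ∀ᵐ x ∂μ, d (g (c x) x) = c x := by
  have hF : Measurable (fun x => g (c x) x) := by
    have h1 : Measurable (fun p : J × X => g p.1 p.2) :=
      measurable_from_prod_countable_right (fun j => (g j).measurable)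
    exact h1.comp (hc.prodMk measurable_id)
  refine ⟨⟨hF, ?_⟩, ?_⟩
  · ext E hE
    rw [Measure.map_apply hF hE, measure_fiber_sum μ hc (hF hE), measure_fiber_sum ν hd hE]
    congr 1
    ext j
    rw [← key j E hE]
    congr 1
    ext x
    simp only [mem_inter_iff, mem_preimage, mem_singleton_iff]
    constructor
    · rintro ⟨h1, h2⟩
      exact ⟨h1, by rwa [h1] at h2⟩
    · rintro ⟨h1, h2⟩
      exact ⟨h1, by rwa [h1]⟩
  · have h2 : {x | ¬ d (g (c x) x) = c x} ⊆ ⋃ j, (c ⁻¹' {j} ∩ g j ⁻¹' (d ⁻¹' {j})ᶜ) := by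
      intro x hx
      refine mem_iUnion.2 ⟨c x, rfl, ?_⟩
      exact hx
    refine measure_mono_null h2 (measure_iUnion_null fun j => ?_)
    rw [key j _ (hd (measurableSet_singleton j)).compl]
    simp

theorem exists_fiber_equiv [StandardBorelSpace X] [StandardBorelSpace Y] [Countable J]
    [MeasurableSingletonClass J]
    (μ : Measure X) (ν : Measure Y) [IsProbabilityMeasure μ] [NullSingletonClass μ]
    [IsProbabilityMeasure ν] [NullSingletonClass ν]
    {c : X → J} {d : Y → J} (hc : Measurable c) (hd : Measurable d)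
    (h : ∀ j, μ (c ⁻¹' {j}) = ν (d ⁻¹' {j})) :
    ∃ e : X ≃ᵐ Y, MeasurePreserving e μ ν ∧ ∀ᵐ x ∂μ, d (e x) = c x := by
  have hg : ∀ j, ∃ g : X ≃ᵐ Y, ∀ E, MeasurableSet E →
      μ (c ⁻¹' {j} ∩ g ⁻¹' E) = ν (d ⁻¹' {j} ∩ E) := by
    intro j
    by_cases h0 : μ (c ⁻¹' {j}) = 0
    · obtain ⟨g, -⟩ := exists_mp_equiv2 μ ν
      refine ⟨g, fun E hE => ?_⟩
      rw [measure_mono_null inter_subset_left h0]
      rw [h] at h0
      rw [measure_mono_null inter_subset_left h0]
    · have h0' : ν (d ⁻¹' {j}) ≠ 0 := by rwa [← h]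
      have p1 : IsProbabilityMeasure (cond μ (c ⁻¹' {j})) := cond_isProbabilityMeasure h0
      have p2 : IsProbabilityMeasure (cond ν (d ⁻¹' {j})) := cond_isProbabilityMeasure h0'
      have q1 : NullSingletonClass (cond μ (c ⁻¹' {j})) :=
        ⟨fun x => cond_absolutelyContinuous (measure_singleton x)⟩
      have q2 : NullSingletonClass (cond ν (d ⁻¹' {j})) :=
        ⟨fun x => cond_absolutelyContinuous (measure_singleton x)⟩
      obtain ⟨g, hg⟩ := exists_mp_equiv2 (cond μ (c ⁻¹' {j})) (cond ν (d ⁻¹' {j}))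
      refine ⟨g, fun E hE => ?_⟩
      have h1 := hg.measure_preimage hE.nullMeasurableSet
      rw [cond_apply (hc (measurableSet_singleton j)), cond_apply (hd (measurableSet_singleton j)),
        ← h] at h1
      exact (ENNReal.mul_right_inj (ENNReal.inv_ne_zero.2 (measure_ne_top _ _))
        (ENNReal.inv_ne_top.2 h0)).1 h1
  choose g hg using hg
  have hg' : ∀ j, ∀ E, MeasurableSet E →
      ν (d ⁻¹' {j} ∩ (g j).symm ⁻¹' E) = μ (c ⁻¹' {j} ∩ E) := by
    intro j E hE
    rw [← hg j _ ((g j).symm.measurable hE)]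
    congr 2
    ext x
    simp
  obtain ⟨h1, h2⟩ := glue μ ν hc hd g hg
  obtain ⟨h3, h4⟩ := glue ν μ hd hc (fun j => (g j).symm) hg'
  obtain ⟨M, hM, hM0, hMc⟩ := exists_null μ
  obtain ⟨N, hN, hN0, hNc⟩ := exists_null ν
  obtain ⟨e, he, -⟩ := null_modification μ ν _ _ h1 h3
    (by
      filter_upwards [h4] with y hy
      rw [hy]
      simp)
    (by
      filter_upwards [h2] with x hx
      rw [hx]
      simp) M hM hM0 hMc N hN hN0 hNc
  refine ⟨e, h1.congr e.measurable (by filter_upwards [he] with x hx using hx.symm), ?_⟩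
  filter_upwards [he, h2] with x hx hx2
  rw [hx, hx2]

theorem exists_model [StandardBorelSpace X] [StandardBorelSpace Y]
    (μ : Measure X) (ν : Measure Y) [IsProbabilityMeasure μ] [NullSingletonClass μ]
    [IsProbabilityMeasure ν] [NullSingletonClass ν]
    {L : Y → X} (hL : MeasurePreserving L ν μ) (F : Finset (Set X))
    (hF : ∀ A ∈ F, MeasurableSet A) :
    ∃ e : X ≃ᵐ Y, MeasurePreserving e μ ν ∧ ∀ A ∈ F, e ⁻¹' (L ⁻¹' A) =ᵐ[μ] A := by
  let c : X → (F → Prop) := fun x A => x ∈ (A : Set X)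
  have hc : Measurable c := by
    refine measurable_pi_lambda _ fun A => ?_
    exact measurableSet_setOfPred.1 (hF A A.2)
  obtain ⟨e, he, h2⟩ := exists_fiber_equiv μ ν hc (hc.comp hL.measurable) (fun j => by
    rw [preimage_comp, hL.measure_preimage (hc (measurableSet_singleton j)).nullMeasurableSet])
  refine ⟨e, he, fun A hA => ?_⟩
  filter_upwards [h2] with x hx
  exact congrFun hx ⟨A, hA⟩

/-- Transfer of a transformation of a labelled space. -/
theorem exists_transfer [StandardBorelSpace X] [StandardBorelSpace Y]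
    (μ : Measure X) (ν : Measure Y) [IsProbabilityMeasure μ] [NullSingletonClass μ]
    [IsProbabilityMeasure ν] [NullSingletonClass ν]
    {L : Y → X} (hL : MeasurePreserving L ν μ) (R : Y ≃ᵐ Y) (hR : MeasurePreserving R ν ν)
    (F : Finset (Set X)) (hF : ∀ A ∈ F, MeasurableSet A) :
    ∃ T : X ≃ᵐ X, MeasurePreserving T μ μ ∧
      (∀ j, ∀ A ∈ F, ∀ C ∈ F, μ ((T^[j] ⁻¹' A) ∆ C) = ν ((R^[j] ⁻¹' (L ⁻¹' A)) ∆ (L ⁻¹' C))) ∧
      ∀ j, R^[j] = id → T^[j] = id := by
  obtain ⟨e, he, h2⟩ := exists_model μ ν hL F hF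
  have hT : ∀ j, (e.trans (R.trans e.symm))^[j] = e.symm ∘ R^[j] ∘ e := by
    intro j
    induction j with
    | zero => ext x; simp
    | succ j ih =>
      rw [Function.iterate_succ', ih, Function.iterate_succ']
      ext x
      simp
  refine ⟨e.trans (R.trans e.symm), (he.symm e).comp (hR.comp he), ?_, ?_⟩
  · intro j A hA C hC
    have hRj : MeasurePreserving R^[j] ν ν := hR.iterate j
    have hLA := hL.measurable (hF A hA)
    have hLC := hL.measurable (hF C hC)
    rw [hT, ← he.measure_preimage ((hRj.measurable hLA).symmDiff hLC).nullMeasurableSet]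
    apply measure_congr
    rw [preimage_symmDiff]
    refine EventuallyEq.symmDiff ?_ (h2 C hC).symm
    have h3 : e.symm ⁻¹' A =ᵐ[ν] L ⁻¹' A := by
      have h4 := ((he.symm e).quasiMeasurePreserving.preimage_ae_eq (h2 A hA)).symm
      rw [← preimage_comp, ← preimage_comp] at h4
      rwa [show (e : X → Y) ∘ e.symm = id by ext y; simp,
        Function.comp_id] at h4
    rw [preimage_comp, preimage_comp]
    exact he.quasiMeasurePreserving.preimage_ae_eq
      (hRj.quasiMeasurePreserving.preimage_ae_eq h3)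
  · intro j hj
    rw [hT, hj]
    ext x
    simp

end Pool.Agent.H98R3.PF
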