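import Pool.Agent.H98R3.PF.Iso

open MeasureTheory Set Filter ProbabilityTheory
open scoped Topology ENNReal symmDiff

namespace Pool.Agent.H98R3.PF

variable {X W : Type*} [MeasurableSpace X] [MeasurableSpace W]

noncomputable def unif (M : ℕ) : Measure (Fin M) := (M : ℝ≥0∞)⁻¹ • Measure.count

instance (M : ℕ) [NeZero M] : SFinite (unif M) := by
  unfold unif
  infer_instance

noncomputable def tow (M : ℕ) (ω : Measure W) : Measure (Fin M × W) := (unif M).prod ω

theorem tow_apply (M : ℕ) (ω : Measure W) [SFinite ω] {E : Set (Fin M × W)}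
    (hE : MeasurableSet E) :
    tow M ω E = (M : ℝ≥0∞)⁻¹ * ∑ p : Fin M, ω (Prod.mk p ⁻¹' E) := by
  rw [tow, Measure.prod_apply hE, unif, lintegral_smul_measure, lintegral_count, tsum_fintype,
    smul_eq_mul]

theorem inv_mul_sum_const (M : ℕ) [NeZero M] (c : ℝ≥0∞) :
    (M : ℝ≥0∞)⁻¹ * ∑ _p : Fin M, c = c := by
  rw [Finset.sum_const, Finset.card_univ, Fintype.card_fin, nsmul_eq_mul, ← mul_assoc,
    ENNReal.inv_mul_cancel (by simp [NeZero.ne M]) (ENNReal.natCast_ne_top M), one_mul]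

instance tow_prob (M : ℕ) [NeZero M] (ω : Measure W) [IsProbabilityMeasure ω] :
    IsProbabilityMeasure (tow M ω) := by
  refine ⟨?_⟩
  rw [tow_apply M ω MeasurableSet.univ]
  simp only [preimage_univ, measure_univ]
  exact inv_mul_sum_const M 1

instance tow_null [MeasurableSingletonClass W] (M : ℕ) [NeZero M] (ω : Measure W)
    [IsProbabilityMeasure ω] [NullSingletonClass ω] : NullSingletonClass (tow M ω) := by
  refine ⟨fun x => ?_⟩
  rw [tow_apply M ω (measurableSet_singleton x)]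
  have : ∀ p : Fin M, ω (Prod.mk p ⁻¹' {x}) = 0 := by
    intro p
    refine measure_mono_null ?_ (measure_singleton (μ := ω) x.2)
    intro w hw
    simp only [mem_preimage, mem_singleton_iff] at hw ⊢
    rw [← hw]
  simp [this]

def shE (M : ℕ) [NeZero M] : Fin M ≃ᵐ Fin M where
  toEquiv := Equiv.addRight 1
  measurable_toFun := Measurable.of_discrete
  measurable_invFun := Measurable.of_discrete

def sh (M : ℕ) [NeZero M] : Fin M × W ≃ᵐ Fin M × W :=
  MeasurableEquiv.prodCongr (shE M) (MeasurableEquiv.refl W)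

theorem sh_apply (M : ℕ) [NeZero M] (p : Fin M) (w : W) : sh M (p, w) = (p + 1, w) := rfl

def rot {M : ℕ} [NeZero M] (p : Fin M) (j : ℕ) : Fin M :=
  ⟨(p.val + j) % M, Nat.mod_lt _ (NeZero.pos M)⟩

theorem rot_succ {M : ℕ} [NeZero M] (p : Fin M) (j : ℕ) : rot p j + 1 = rot p (j + 1) := by
  apply Fin.ext
  rw [Fin.val_add]
  show ((p.val + j) % M + (1 : Fin M).val) % M = (p.val + (j + 1)) % M
  rw [Fin.val_one', ← Nat.add_mod, add_assoc]

theorem sh_iter (M : ℕ) [NeZero M] (j : ℕ) (p : Fin M) (w : W) :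
    (sh M)^[j] (p, w) = (rot p j, w) := by
  induction j with
  | zero =>
    simp only [Function.iterate_zero, id_eq, rot, add_zero, Prod.mk.injEq, and_true]
    exact Fin.ext (Nat.mod_eq_of_lt p.isLt).symm
  | succ j ih =>
    rw [Function.iterate_succ_apply', ih, sh_apply, rot_succ]

theorem sh_mp (M : ℕ) [NeZero M] (ω : Measure W) [SFinite ω] :
    MeasurePreserving (sh M) (tow M ω) (tow M ω) := by
  refine ⟨(sh M).measurable, ?_⟩
  ext E hE
  rw [Measure.map_apply (sh M).measurable hE, tow_apply M ω ((sh M).measurable hE),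
    tow_apply M ω hE]
  congr 1
  exact Equiv.sum_comp (Equiv.addRight (1 : Fin M)) (fun p => ω (Prod.mk p ⁻¹' E))

def lab {M : ℕ} (l : Fin M → W → X) : Fin M × W → X := fun q => l q.1 q.2

theorem lab_mp {M : ℕ} [NeZero M] {μ : Measure X} {ω : Measure W} [SFinite ω]
    {l : Fin M → W → X} (hl : ∀ p, MeasurePreserving (l p) ω μ) :
    MeasurePreserving (lab l) (tow M ω) μ := by
  have hm : Measurable (lab l) := measurable_from_prod_countable_right (fun p => (hl p).measurable)
  refine ⟨hm, ?_⟩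
  ext E hE
  rw [Measure.map_apply hm hE, tow_apply M ω (hm hE)]
  have : ∀ p : Fin M, ω (Prod.mk p ⁻¹' (lab l ⁻¹' E)) = μ E := by
    intro p
    exact (hl p).measure_preimage hE.nullMeasurableSet
  simp only [this]
  exact inv_mul_sum_const M _

theorem tower_main [StandardBorelSpace X] [StandardBorelSpace W]
    (μ : Measure X) (ω : Measure W) [IsProbabilityMeasure μ] [NullSingletonClass μ]
    [IsProbabilityMeasure ω] [NullSingletonClass ω] (M : ℕ) [NeZero M]
    (l : Fin M → W → X) (hl : ∀ p, MeasurePreserving (l p) ω μ)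
    (F : Finset (Set X)) (hF : ∀ A ∈ F, MeasurableSet A) :
    ∃ T : X ≃ᵐ X, MeasurePreserving T μ μ ∧
      (∀ j : ℕ, ∀ A ∈ F, ∀ C ∈ F, μ ((T^[j] ⁻¹' A) ∆ C) =
        (M : ℝ≥0∞)⁻¹ * ∑ p : Fin M, ω ((l (rot p j) ⁻¹' A) ∆ (l p ⁻¹' C))) ∧
      T^[M] = id := by
  have hL := lab_mp hl
  obtain ⟨T, h1, h2, h3⟩ := exists_transfer μ (tow M ω) hL (sh M) (sh_mp M ω) F hF
  refine ⟨T, h1, ?_, h3 M ?_⟩
  · intro j A hA C hC
    rw [h2 j A hA C hC, tow_apply]
    · congr 1
      refine Finset.sum_congr rfl fun p _ => ?_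
      congr 1
      ext w
      simp only [mem_preimage, mem_symmDiff, sh_iter, lab]
    · exact (((sh_mp M ω).iterate j).measurable (hL.measurable (hF A hA))).symmDiff
        (hL.measurable (hF C hC))
  · funext q
    rw [show q = (q.1, q.2) from rfl, sh_iter, id]
    congr 1
    apply Fin.ext
    show (q.1.val + M) % M = q.1.val
    rw [Nat.add_mod_right, Nat.mod_eq_of_lt q.1.isLt]

theorem cnt (H : ℕ) (hH : 1 ≤ H) (N : ℕ) :
    ∑ p ∈ Finset.range (N * H), (if p % H = H - 1 then (1 : ℝ≥0∞) else 0) = N := by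
  induction N with
  | zero => simp
  | succ N ih =>
    rw [Nat.succ_mul, Finset.sum_range_add, ih]
    have : ∑ x ∈ Finset.range H, (if (N * H + x) % H = H - 1 then (1 : ℝ≥0∞) else 0) = 1 := by
      rw [Finset.sum_eq_single (H - 1)]
      · rw [Nat.mul_add_mod', Nat.mod_eq_of_lt (by omega)]
        simp
      · intro b hb hb'
        rw [Nat.mul_add_mod', Nat.mod_eq_of_lt (Finset.mem_range.1 hb), if_neg hb']
      · intro h
        exact absurd (Finset.mem_range.2 (by omega)) h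
    rw [this]
    push_cast
    rfl

theorem bad_bound (N H : ℕ) (hN : 1 ≤ N) (hH : 1 ≤ H) (f : Fin (N * H) → ℝ≥0∞)
    (h0 : ∀ p, p.val % H ≠ H - 1 → f p = 0) (h1 : ∀ p, f p ≤ 1) :
    ((N * H : ℕ) : ℝ≥0∞)⁻¹ * ∑ p : Fin (N * H), f p ≤ (H : ℝ≥0∞)⁻¹ := by
  have h2 : ∑ p : Fin (N * H), f p ≤ N := by
    calc ∑ p : Fin (N * H), f p ≤ ∑ p : Fin (N * H), (if p.val % H = H - 1 then 1 else 0) := by
          refine Finset.sum_le_sum fun p _ => ?_
          by_cases h : p.val % H = H - 1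
          · rw [if_pos h]; exact h1 p
          · rw [h0 p h]; exact zero_le
      _ = N := by
          rw [Fin.sum_univ_eq_sum_range (fun p => if p % H = H - 1 then (1 : ℝ≥0∞) else 0)]
          exact cnt H hH N
  calc ((N * H : ℕ) : ℝ≥0∞)⁻¹ * ∑ p : Fin (N * H), f p
      ≤ ((N * H : ℕ) : ℝ≥0∞)⁻¹ * N := by gcongr
    _ = (H : ℝ≥0∞)⁻¹ := by
        have hN0 : (N : ℝ≥0∞) ≠ 0 := by simp; omega
        push_cast
        rw [ENNReal.mul_inv (Or.inl hN0) (Or.inl (ENNReal.natCast_ne_top N)), mul_comm, ← mul_assoc,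
          ENNReal.mul_inv_cancel hN0 (ENNReal.natCast_ne_top N), one_mul]

end Pool.Agent.H98R3.PF
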